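import Mathlib

/-!
# Total functions computable in an oracle

`TC O f`: the total function `f : ℕ → ℕ` is computable in the total function `O`.
`CI O f`: the function `f` between `Primcodable` types is computable in `O`.
`DecIn O p`: the predicate `p` is decidable in `O`.
-/

namespace Pool.Agent.Helper97.Spectra

open Encodable

/-- Total functions on natural numbers, computable in the oracle `O`. -/
def TC (O f : ℕ → ℕ) : Prop :=
  Nat.RecursiveIn {fun n => Part.some (O n)} (fun n => Part.some (f n))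

namespace TC

variable {O : ℕ → ℕ}

theorem of_eq {f g : ℕ → ℕ} (hf : TC O f) (H : ∀ n, f n = g n) : TC O g :=
  (funext H : f = g) ▸ hf

theorem of_primrec {f : ℕ → ℕ} (hf : Nat.Primrec f) : TC O f := hf.recursiveIn

theorem oracle : TC O O := Nat.RecursiveIn.oracle _ (Set.mem_singleton _)

theorem pair {f g : ℕ → ℕ} (hf : TC O f) (hg : TC O g) : TC O fun n => Nat.pair (f n) (g n) := by
  refine Nat.RecursiveIn.of_eq (Nat.RecursiveIn.pair hf hg) fun n => ?_
  simp [Seq.seq]

theorem comp {f g : ℕ → ℕ} (hf : TC O f) (hg : TC O g) : TC O fun n => f (g n) := by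
  refine Nat.RecursiveIn.of_eq (Nat.RecursiveIn.comp hf hg) fun n => ?_
  simp

theorem prec {f g : ℕ → ℕ} (hf : TC O f) (hg : TC O g) :
    TC O (Nat.unpaired fun z n => n.rec (f z) fun y IH => g <| Nat.pair z <| Nat.pair y IH) := by
  refine Nat.RecursiveIn.of_eq (Nat.RecursiveIn.prec hf hg) fun n => ?_
  simp only [Nat.unpaired]
  induction n.unpair.2 with
  | zero => rfl
  | succ m ih =>
    simp only [Part.bind_eq_bind] at ih ⊢
    rw [ih, Part.bind_some]

theorem find {f g : ℕ → ℕ} (hf : TC O f)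
    (h : ∀ a, f (Nat.pair a (g a)) = 0 ∧ ∀ n < g a, f (Nat.pair a n) ≠ 0) : TC O g := by
  refine Nat.RecursiveIn.of_eq (Nat.RecursiveIn.rfind hf) fun a => ?_
  rw [Part.eq_some_iff, Nat.mem_rfind]
  constructor
  · simp [(h a).1]
  · intro m hm
    simp [(h a).2 m hm]

/-- `F z` unless the second component is `0`. -/
theorem cases {F : ℕ → ℕ} (hF : TC O F) :
    TC O (Nat.unpaired fun z n => Nat.casesOn n 0 fun _ => F z) := by
  have h3 : TC O fun n : ℕ => F n.unpair.1 :=
    TC.comp (g := fun n : ℕ => n.unpair.1) hF (TC.of_primrec .left)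
  have h4 := TC.prec (f := fun _ => 0) (g := fun n : ℕ => F n.unpair.1) (TC.of_primrec .zero) h3
  refine h4.of_eq fun n => ?_
  simp only [Nat.unpaired]
  cases h : n.unpair.2 with
  | zero => rfl
  | succ m => simp only [Nat.unpair_pair]

end TC

variable {α β γ σ : Type*} [Primcodable α] [Primcodable β] [Primcodable γ] [Primcodable σ]

/-- Total functions between `Primcodable` types, computable in the oracle `O`. -/
def CI (O : ℕ → ℕ) (f : α → β) : Prop := TC O fun n => encode ((@decode α _ n).map f)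

/-- Predicates decidable in the oracle `O`. -/
def DecIn (O : ℕ → ℕ) (p : α → Prop) : Prop :=
  ∃ f : α → Bool, CI O f ∧ ∀ a, p a ↔ f a = true

namespace CI

variable {O : ℕ → ℕ}

theorem of_primrec {f : α → β} (hf : Primrec f) : CI O f := TC.of_primrec hf

theorem of_eq {f g : α → β} (hf : CI O f) (H : ∀ a, f a = g a) : CI O g :=
  (funext H : f = g) ▸ hf

theorem aux_pair (α : Type*) [Primcodable α] :
    TC O fun n => Nat.pair n (encode (@decode α _ n)) :=
  TC.of_primrec (Nat.Primrec.pair Nat.Primrec.id (Primcodable.prim α))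

theorem comp {f : β → σ} {g : α → β} (hf : CI O f) (hg : CI O g) : CI O fun a => f (g a) := by
  have h1 : TC O fun n => encode ((@decode β _ (Nat.pred (encode ((@decode α _ n).map g)))).map f) :=
    TC.comp hf ((TC.of_primrec .pred).comp hg)
  have h2 := TC.cases h1
  have h3 := TC.comp h2 (aux_pair α)
  refine h3.of_eq fun n => ?_
  simp only [Nat.unpaired, Nat.unpair_pair]
  cases h : @decode α _ n with
  | none => simp
  | some a => simp [encodek]

theorem id : CI O fun a : α => a := of_primrec Primrec.id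

theorem const (b : β) : CI O fun _ : α => b := of_primrec (Primrec.const b)

theorem pair {f : α → β} {g : α → γ} (hf : CI O f) (hg : CI O g) : CI O fun a => (f a, g a) := by
  have hf' : TC O fun n => encode ((@decode α _ n).map f) := hf
  have hg' : TC O fun n => encode ((@decode α _ n).map g) := hg
  have h1 : TC O fun n => (Nat.pair (Nat.pred (encode ((@decode α _ n).map f)))
      (Nat.pred (encode ((@decode α _ n).map g)))).succ :=
    TC.comp (f := Nat.succ) (TC.of_primrec .succ)
      (((TC.of_primrec .pred).comp hf').pair ((TC.of_primrec .pred).comp hg'))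
  have h2 := TC.cases h1
  have h3 := TC.comp h2 (aux_pair α)
  refine h3.of_eq fun n => ?_
  simp only [Nat.unpaired, Nat.unpair_pair]
  cases h : @decode α _ n with
  | none => simp
  | some a => simp

theorem fst' {f : α → β × γ} (hf : CI O f) : CI O fun a => (f a).1 :=
  (of_primrec Primrec.fst).comp hf

theorem snd' {f : α → β × γ} (hf : CI O f) : CI O fun a => (f a).2 :=
  (of_primrec Primrec.snd).comp hf

theorem prim {g : β → γ} (hg : Primrec g) {f : α → β} (hf : CI O f) : CI O fun a => g (f a) :=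
  (of_primrec hg).comp hf

theorem prim₂ {g : β → γ → σ} (hg : Primrec₂ g) {f : α → β} {h : α → γ} (hf : CI O f)
    (hh : CI O h) : CI O fun a => g (f a) (h a) :=
  (of_primrec hg).comp (hf.pair hh)

theorem comp₂ {g : β → γ → σ} (hg : CI O fun p : β × γ => g p.1 p.2) {f : α → β} {h : α → γ}
    (hf : CI O f) (hh : CI O h) : CI O fun a => g (f a) (h a) :=
  hg.comp (hf.pair hh)

theorem aux1 : Nat.Primrec fun w : ℕ => Nat.pair w.unpair.1
      (Nat.pair w.unpair.2.unpair.1 (Nat.pred w.unpair.2.unpair.2)) := by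
  apply Primrec.nat_iff.1
  have h1 : Primrec fun w : ℕ => w.unpair.1 := Primrec.fst.comp Primrec.unpair
  have h2 : Primrec fun w : ℕ => w.unpair.2 := Primrec.snd.comp Primrec.unpair
  exact Primrec₂.natPair.comp h1
    (Primrec₂.natPair.comp (h1.comp h2) (Primrec.pred.comp (h2.comp h2)))

theorem aux2 (α : Type*) [Primcodable α] :
    Nat.Primrec fun n : ℕ => Nat.pair n (encode (@decode α _ n.unpair.1)) := by
  have h := Nat.Primrec.comp (Primcodable.prim α) Nat.Primrec.left
  exact Nat.Primrec.pair Nat.Primrec.id h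

/-- Primitive recursion. -/
theorem nat_rec {f : α → β} {g : α → ℕ × β → β} (hf : CI O f)
    (hg : CI O fun p : α × (ℕ × β) => g p.1 p.2) :
    CI O fun p : α × ℕ => p.2.rec (motive := fun _ => β) (f p.1) fun n IH => g p.1 (n, IH) := by
  -- iterate on codes; the code of `some b` is `encode b + 1`
  have hf' : TC O fun n => encode ((@decode α _ n).map f) := hf
  have hg' : TC O fun n => encode ((@decode (α × (ℕ × β)) _ n).map fun p => g p.1 p.2) := hg
  have h0 := TC.comp hg' (TC.of_primrec aux1)
  have h1 := TC.prec hf' h0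
  have h2 := TC.cases h1
  have h4 : TC O fun n : ℕ => Nat.pair n (encode (@decode α _ n.unpair.1)) :=
    TC.of_primrec (aux2 α)
  have h5 := TC.comp h2 h4
  refine h5.of_eq fun n => ?_
  cases h : @decode α _ n.unpair.1 with
  | none => simp [h]
  | some a =>
    simp only [Nat.unpaired, Nat.unpair_pair, h, encode_some, decode_prod_val,
      Option.bind_some, decode_nat, Option.map_some, Nat.pred_eq_sub_one, Nat.succ_eq_add_one]
    induction n.unpair.2 with
    | zero => rfl
    | succ m ih => simp only [ih, Nat.add_sub_cancel, encodek, Option.map_some, encode_some,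
        Nat.succ_eq_add_one]

theorem nat_rec' {f : α → ℕ} {g : α → β} {h : α → ℕ × β → β} (hf : CI O f) (hg : CI O g)
    (hh : CI O fun p : α × (ℕ × β) => h p.1 p.2) :
    CI O fun a => (f a).rec (motive := fun _ => β) (g a) fun n IH => h a (n, IH) :=
  (nat_rec hg hh).comp (id.pair hf)

theorem nat_iff {f : ℕ → ℕ} : CI O f ↔ TC O f := by
  constructor
  · intro h
    have h1 := TC.comp (TC.of_primrec .pred) h
    refine h1.of_eq fun n => ?_
    simp
  · intro h
    have h1 := TC.comp (f := Nat.succ) (TC.of_primrec .succ) h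
    refine TC.of_eq h1 fun n => ?_
    simp

theorem oracle : CI O O := nat_iff.2 TC.oracle

theorem find_aux {F : α × ℕ → ℕ} (hF : CI O F) (h : ∀ a, ∃ n, F (a, n) = 0) :
    ∃ g : α → ℕ, CI O g ∧ ∀ a, F (a, g a) = 0 ∧ ∀ m < g a, F (a, m) ≠ 0 := by
  have h1 := TC.comp (TC.of_primrec .pred) hF
  have h2 : ∀ n, ∃ m, Nat.pred (encode ((@decode (α × ℕ) _ (Nat.pair n m)).map F)) = 0 := by
    intro n
    cases hn : @decode α _ n with
    | none => exact ⟨0, by simp [hn]⟩
    | some a =>
      obtain ⟨m, hm⟩ := h a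
      exact ⟨m, by simp [hn, hm]⟩
  classical
  have h3 : TC O fun n => Nat.find (h2 n) :=
    TC.find h1 fun n => ⟨Nat.find_spec (h2 n), fun m hm => Nat.find_min (h2 n) hm⟩
  have h4 := (nat_iff.2 h3).comp (of_primrec (Primrec.encode (α := α)))
  refine ⟨_, h4, fun a => ⟨?_, fun m hm => ?_⟩⟩
  · have := Nat.find_spec (h2 (encode a))
    simpa using this
  · have := Nat.find_min (h2 (encode a)) hm
    simpa using this

theorem cond {c : α → Bool} {f g : α → β} (hc : CI O c) (hf : CI O f) (hg : CI O g) :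
    CI O fun a => bif c a then f a else g a :=
  (of_primrec (Primrec.cond Primrec.fst (Primrec.fst.comp Primrec.snd)
    (Primrec.snd.comp Primrec.snd))).comp (hc.pair (hf.pair hg))

end CI

namespace DecIn

variable {O : ℕ → ℕ} {p q : α → Prop}

theorem of_prim (h : PrimrecPred p) : DecIn O p := by
  obtain ⟨hd, h⟩ := h
  exact ⟨_, CI.of_primrec h, fun a => by simp⟩

theorem of_iff (h : DecIn O p) (H : ∀ a, q a ↔ p a) : DecIn O q := by
  obtain ⟨f, hf, h⟩ := h
  exact ⟨f, hf, fun a => (H a).trans (h a)⟩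

theorem comp {p : β → Prop} (h : DecIn O p) {g : α → β} (hg : CI O g) :
    DecIn O fun a => p (g a) := by
  obtain ⟨f, hf, h⟩ := h
  exact ⟨_, hf.comp hg, fun a => h _⟩

theorem comp₂ {p : β → γ → Prop} (h : DecIn O fun x : β × γ => p x.1 x.2) {f : α → β} {g : α → γ}
    (hf : CI O f) (hg : CI O g) : DecIn O fun a => p (f a) (g a) :=
  h.comp (hf.pair hg)

theorem not (h : DecIn O p) : DecIn O fun a => ¬ p a := by
  obtain ⟨f, hf, h⟩ := h
  exact ⟨_, CI.prim Primrec.not hf, fun a => by simp [h]⟩

theorem and (hp : DecIn O p) (hq : DecIn O q) : DecIn O fun a => p a ∧ q a := by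
  obtain ⟨f, hf, h⟩ := hp
  obtain ⟨g, hg, h'⟩ := hq
  exact ⟨_, CI.prim₂ Primrec.and hf hg, fun a => by simp [h, h']⟩

theorem or (hp : DecIn O p) (hq : DecIn O q) : DecIn O fun a => p a ∨ q a := by
  obtain ⟨f, hf, h⟩ := hp
  obtain ⟨g, hg, h'⟩ := hq
  exact ⟨_, CI.prim₂ Primrec.or hf hg, fun a => by simp [h, h']⟩

theorem imp (hp : DecIn O p) (hq : DecIn O q) : DecIn O fun a => p a → q a :=
  (hp.not.or hq).of_iff fun a => by tauto

theorem iff (hp : DecIn O p) (hq : DecIn O q) : DecIn O fun a => p a ↔ q a :=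
  ((hp.imp hq).and (hq.imp hp)).of_iff fun a => by tauto

theorem eq {f g : α → β} (hf : CI O f) (hg : CI O g) : DecIn O fun a => f a = g a := by
  have h : DecIn O fun x : ℕ × ℕ => x.1 = x.2 := of_prim Primrec.eq
  exact (h.comp ((CI.prim Primrec.encode hf).pair (CI.prim Primrec.encode hg))).of_iff fun a => by
    simp

theorem lt {f g : α → ℕ} (hf : CI O f) (hg : CI O g) : DecIn O fun a => f a < g a := by
  have h : DecIn O fun x : ℕ × ℕ => x.1 < x.2 := of_prim Primrec.nat_lt
  exact h.comp (hf.pair hg)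

theorem le {f g : α → ℕ} (hf : CI O f) (hg : CI O g) : DecIn O fun a => f a ≤ g a := by
  have h : DecIn O fun x : ℕ × ℕ => x.1 ≤ x.2 := of_prim Primrec.nat_le
  exact h.comp (hf.pair hg)

theorem all_lt {p : α → ℕ → Prop} (h : DecIn O fun x : α × ℕ => p x.1 x.2) {f : α → ℕ}
    (hf : CI O f) : DecIn O fun a => ∀ n < f a, p a n := by
  obtain ⟨c, hc, h⟩ := h
  refine ⟨fun a => (f a).rec true fun n IH => IH && c (a, n), ?_, ?_⟩
  · refine CI.nat_rec' (g := fun _ => true) (h := fun a x => x.2 && c (a, x.1)) hf (CI.const _) ?_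
    exact CI.prim₂ Primrec.and (CI.snd' (CI.snd' CI.id))
      (hc.comp ((CI.fst' CI.id).pair (CI.fst' (CI.snd' CI.id))))
  · intro a
    change (∀ n < f a, p a n) ↔ ((f a).rec true fun n IH => IH && c (a, n) : Bool) = true
    generalize f a = k
    induction k with
    | zero => simp
    | succ n ih =>
      simp only [Bool.and_eq_true, ← ih, Order.lt_add_one_iff]
      constructor
      · intro H
        exact ⟨fun m hm => H m hm.le, (h (a, n)).1 (H n le_rfl)⟩
      · rintro ⟨H1, H2⟩ m hm
        rcases hm.lt_or_eq with h' | rfl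
        · exact H1 m h'
        · exact (h (a, m)).2 H2

theorem ex_lt {p : α → ℕ → Prop} (h : DecIn O fun x : α × ℕ => p x.1 x.2) {f : α → ℕ}
    (hf : CI O f) : DecIn O fun a => ∃ n < f a, p a n :=
  (all_lt (p := fun a n => ¬ p a n) h.not hf).not.of_iff fun a => by push Not; rfl

theorem ite {f g : α → β} [∀ a, Decidable (p a)] (hp : DecIn O p) (hf : CI O f) (hg : CI O g) :
    CI O fun a => if p a then f a else g a := by
  obtain ⟨c, hc, h⟩ := hp
  refine (CI.cond hc hf hg).of_eq fun a => ?_
  by_cases h' : c a = true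
  · rw [if_pos ((h a).2 h'), h']; rfl
  · rw [if_neg (mt (h a).1 h'), Bool.eq_false_iff.2 h']; rfl

/-- Unbounded search on natural numbers. -/
theorem find {p : α → ℕ → Prop} (h : DecIn O fun x : α × ℕ => p x.1 x.2) (H : ∀ a, ∃ n, p a n) :
    ∃ g : α → ℕ, CI O g ∧ ∀ a, p a (g a) ∧ ∀ m < g a, ¬ p a m := by
  obtain ⟨c, hc, h⟩ := h
  obtain ⟨g, hg, hg'⟩ := CI.find_aux (F := fun x => bif c x then 0 else 1)
    (CI.cond hc (CI.const _) (CI.const _)) (by
      intro a
      obtain ⟨n, hn⟩ := H a
      exact ⟨n, by simp [(h (a, n)).1 hn]⟩)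
  refine ⟨g, hg, fun a => ⟨?_, fun m hm => ?_⟩⟩
  · have := (hg' a).1
    refine (h (a, g a)).2 ?_
    cases hh : c (a, g a)
    · simp [hh] at this
    · rfl
  · have := (hg' a).2 m hm
    refine mt (h (a, m)).1 ?_
    cases hh : c (a, m)
    · simp
    · simp [hh] at this

/-- Unbounded search. -/
theorem choose [Inhabited β] {p : α → β → Prop} (h : DecIn O fun x : α × β => p x.1 x.2)
    (H : ∀ a, ∃ b, p a b) : ∃ g : α → β, CI O g ∧ ∀ a, p a (g a) := by
  have hd : CI O fun n : ℕ => ((@decode β _ n).getD default) :=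
    CI.of_primrec (Primrec.option_getD.comp Primrec.decode (Primrec.const _))
  have h1 : DecIn O fun x : α × ℕ => p x.1 ((@decode β _ x.2).getD default) :=
    h.comp ((CI.fst' CI.id).pair (hd.comp (CI.snd' CI.id)))
  obtain ⟨g, hg, hg'⟩ := find (p := fun a n => p a ((@decode β _ n).getD default)) h1 (by
    intro a
    obtain ⟨b, hb⟩ := H a
    exact ⟨encode b, by simpa using hb⟩)
  exact ⟨_, hd.comp hg, fun a => (hg' a).1⟩

/-- A total relation decidable in `O` has an infinite path computable in `O`. -/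
theorem path [Inhabited β] {p : β → β → Prop} (h : DecIn O fun x : β × β => p x.1 x.2)
    (H : ∀ a, ∃ b, p a b) (b₀ : β) :
    ∃ g : ℕ → β, CI O g ∧ g 0 = b₀ ∧ ∀ n, p (g n) (g (n + 1)) := by
  obtain ⟨s, hs, hs'⟩ := choose h H
  refine ⟨fun n => n.rec b₀ fun _ IH => s IH, ?_, rfl, fun n => hs' _⟩
  refine CI.nat_rec' (f := fun n => n) (g := fun _ => b₀) (h := fun _ x => s x.2) CI.id
    (CI.const _) ?_
  exact hs.comp (CI.snd' (CI.snd' CI.id))

end DecIn

end Pool.Agent.Helper97.Spectra
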