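import Pool.Agent.Helper97.Spectra.Limit
import Pool.Agent.Helper97.Spectra.Rel

/-!
# Computability of the construction
-/

namespace Pool.Agent.Helper97.Spectra

open Encodable

universe u

/-- The coding of `P` given by an enumeration. -/
@[reducible] def codP {P : Type u} (e : ℕ ≃ P) : Primcodable P := Primcodable.ofEquiv ℕ e.symm

section

variable {O : ℕ → ℕ} {α : Type*} [Primcodable α]

namespace CI

theorem succ' {f : α → ℕ} (hf : CI O f) : CI O fun a => f a + 1 := CI.prim Primrec.succ hf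

theorem add' {f g : α → ℕ} (hf : CI O f) (hg : CI O g) : CI O fun a => f a + g a :=
  CI.prim₂ Primrec.nat_add hf hg

theorem length' {β : Type*} [Primcodable β] {f : α → List β} (hf : CI O f) :
    CI O fun a => (f a).length := CI.prim Primrec.list_length hf

theorem unpair_fst {f : α → ℕ} (hf : CI O f) : CI O fun a => (f a).unpair.1 :=
  CI.prim (Primrec.fst.comp Primrec.unpair) hf

theorem unpair_snd {f : α → ℕ} (hf : CI O f) : CI O fun a => (f a).unpair.2 :=
  CI.prim (Primrec.snd.comp Primrec.unpair) hf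

theorem coef' {f g : α → ℕ} (hf : CI O f) (hg : CI O g) : CI O fun a => coef (f a) (g a) := by
  have h : Primrec₂ coef := by
    unfold coef
    exact (Primrec.list_getD 0).comp (Primrec.option_getD.comp
      (Primrec.decode.comp Primrec.fst) (Primrec.const [])) Primrec.snd
  exact CI.prim₂ h hf hg

end CI

end

section

variable {P : Type u} (e : ℕ ≃ P) {O : ℕ → ℕ} {α : Type*} [Primcodable α]

theorem ci_e {f : α → ℕ} (hf : CI O f) : letI := codP e; CI O fun a => e (f a) := by
  let := codP e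
  exact CI.prim (Primrec.of_equiv_symm (e := e.symm)) hf

theorem ci_es {f : α → P} (hf : letI := codP e; CI O f) : CI O fun a => e.symm (f a) := by
  let := codP e
  exact CI.prim (Primrec.of_equiv (e := e.symm)) hf

variable [AddCommGroup P]

theorem ci_ent (c₀ : P) {s : α → ℕ × List P} {f : α → ℕ}
    (hs : letI := codP e; CI O s) (hf : CI O f) :
    letI := codP e; CI O fun a => ent c₀ (s a) (f a) := by
  let := codP e
  exact CI.prim₂ (Primrec.list_getD (0 : P))
    (CI.prim₂ Primrec.list_cons (CI.const c₀) (CI.snd' hs)) hf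

theorem ci_smul (hadd : letI := codP e; CI O fun x : P × P => x.1 + x.2) {n : α → ℕ} {f : α → P}
    (hn : CI O n) (hf : letI := codP e; CI O f) : letI := codP e; CI O fun a => n a • f a := by
  let := codP e
  have h := CI.nat_rec' (f := n) (g := fun _ => (0 : P)) (h := fun a x => x.2 + f a) hn
    (CI.const _) (hadd.comp ((CI.snd' (CI.snd' CI.id)).pair (hf.comp (CI.fst' CI.id))))
  refine h.of_eq fun a => ?_
  generalize n a = k
  induction k with
  | zero => simp
  | succ k ih =>
    rw [succ_nsmul, ← ih]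

theorem ci_lc (hadd : letI := codP e; CI O fun x : P × P => x.1 + x.2) {A : α → ℕ → ℕ}
    {F : α → ℕ → P} {n : α → ℕ} (hA : CI O fun x : α × ℕ => A x.1 x.2)
    (hF : letI := codP e; CI O fun x : α × ℕ => F x.1 x.2) (hn : CI O n) :
    letI := codP e; CI O fun a => lc (A a) (F a) (n a) := by
  let := codP e
  refine CI.nat_rec' (f := n) (g := fun _ => (0 : P)) (h := fun a x => x.2 + A a x.1 • F a x.1) hn
    (CI.const _) ?_
  have h1 : CI O fun p : α × (ℕ × P) => (p.1, p.2.1) :=
    (CI.fst' CI.id).pair (CI.fst' (CI.snd' CI.id))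
  exact hadd.comp ((CI.snd' (CI.snd' CI.id)).pair (ci_smul e hadd (hA.comp h1) (hF.comp h1)))

theorem dec_cert (c₀ : P) (hadd : letI := codP e; CI O fun x : P × P => x.1 + x.2)
    {q m : α → ℕ} {s : α → ℕ × List P} {x : α → P} (hq : CI O q) (hm : CI O m)
    (hs : letI := codP e; CI O s) (hx : letI := codP e; CI O x) :
    DecIn O fun a => Cert (q a) (m a) (ent c₀ (s a)) (x a) := by
  let := codP e
  unfold Cert
  have h1 : CI O fun x : α × ℕ => ent c₀ (s x.1) x.2 :=
    ci_ent e c₀ (hs.comp (CI.fst' CI.id)) (CI.snd' CI.id)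
  have h2 : CI O fun x : α × ℕ => coef (q x.1).unpair.2.unpair.1 x.2 :=
    CI.coef' (CI.unpair_fst (CI.unpair_snd (hq.comp (CI.fst' CI.id)))) (CI.snd' CI.id)
  have h3 : CI O fun x : α × ℕ => coef (q x.1).unpair.2.unpair.2 x.2 :=
    CI.coef' (CI.unpair_snd (CI.unpair_snd (hq.comp (CI.fst' CI.id)))) (CI.snd' CI.id)
  exact DecIn.eq (hadd.comp ((ci_smul e hadd (CI.succ' (CI.unpair_fst hq)) hx).pair
    (ci_lc e hadd (A := fun a => coef (q a).unpair.2.unpair.1) (F := fun a => ent c₀ (s a))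
      h2 h1 hm))) (ci_lc e hadd (A := fun a => coef (q a).unpair.2.unpair.2)
        (F := fun a => ent c₀ (s a)) h3 h1 hm)

variable [LinearOrder P]

theorem dec_step (Ref : ℕ → P → Prop) (c₀ : P)
    (hadd : letI := codP e; CI O fun x : P × P => x.1 + x.2)
    (hlt : letI := codP e; DecIn O fun x : P × P => x.1 < x.2)
    (hRef : letI := codP e; DecIn O fun x : ℕ × P => Ref x.1 x.2) :
    letI := codP e
    DecIn O fun x : (ℕ × List P) × (ℕ × List P) => Step Ref e c₀ x.1 x.2 := by
  let := codP e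
  have l1 : ∀ {α : Type u} [Primcodable α] {f g : α → P}, CI O f → CI O g →
      DecIn O fun a => f a < g a := fun hf hg => hlt.comp (hf.pair hg)
  have l2 : ∀ {α : Type u} [Primcodable α] {f g : α → P}, CI O f → CI O g →
      CI O fun a => f a + g a := fun hf hg => hadd.comp (hf.pair hg)
  have l3 : ∀ {α : Type u} [Primcodable α] {f : α → ℕ} {g : α → P}, CI O f → CI O g →
      DecIn O fun a => Ref (f a) (g a) := fun hf hg => hRef.comp (hf.pair hg)
  have l4 : ∀ {α : Type u} [Primcodable α] {f : α → ℕ} {s : α → ℕ × List P}, CI O s → CI O f →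
      CI O fun a => ent c₀ (s a) (f a) := fun hs hf => ci_ent e c₀ hs hf
  have l5 : ∀ {α : Type u} [Primcodable α] {f : α → P}, CI O f → CI O fun a => e.symm (f a) :=
    fun hf => ci_es e hf
  have l6 : ∀ {α : Type u} [Primcodable α] {f : α → ℕ}, CI O f → CI O fun a => e (f a) :=
    fun hf => ci_e e hf
  have l7 : ∀ {α : Type u} [Primcodable α] {q m : α → ℕ} {s : α → ℕ × List P} {x : α → P},
      CI O q → CI O m → CI O s → CI O x →
      DecIn O fun a => Cert (q a) (m a) (ent c₀ (s a)) (x a) :=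
    fun hq hm hs hx => dec_cert e c₀ hadd hq hm hs hx
  unfold Step
  repeat' with_reducible first
    | exact CI.id
    | exact CI.const _
    | apply l7
    | apply DecIn.and
    | apply DecIn.all_lt
    | apply DecIn.ex_lt
    | apply DecIn.or
    | apply DecIn.iff
    | apply l1
    | apply l3
    | apply DecIn.eq
    | apply DecIn.lt
    | apply DecIn.le
    | apply DecIn.not
    | apply DecIn.imp
    | apply l2
    | apply l4
    | apply l5
    | apply l6
    | apply CI.length'
    | apply CI.succ'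
    | apply CI.add'
    | apply CI.fst'
    | apply CI.snd'

end

/-- Every nontrivial divisible subgroup whose complement is enumerable has a computable copy
(relative to an oracle computing the big group). -/
theorem exists_copy {P : Type u} [AddCommGroup P] [LinearOrder P] [IsOrderedAddMonoid P]
    (e : ℕ ≃ P) {O : ℕ → ℕ} (V : AddSubgroup P)
    (hdiv : ∀ n : ℕ, 0 < n → ∀ w ∈ V, ∃ v ∈ V, n • v = w) (hne : ∃ w ∈ V, w ≠ 0)
    (Ref : ℕ → P → Prop) (hV : ∀ x, x ∉ V ↔ ∃ d, Ref d x)
    (hadd : letI := codP e; CI O fun x : P × P => x.1 + x.2)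
    (hlt : letI := codP e; DecIn O fun x : P × P => x.1 < x.2)
    (hRef : letI := codP e; DecIn O fun x : ℕ × P => Ref x.1 x.2) :
    ∃ b : ℕ → P, b.Injective ∧ Set.range b = V ∧
      (DecIn O fun x : ℕ × ℕ => b x.1 < b x.2) ∧
      (DecIn O fun x : (ℕ × ℕ) × ℕ => b x.1.1 + b x.1.2 = b x.2) := by
  let := codP e
  obtain ⟨c₀, hc, hc0⟩ := hne
  obtain ⟨f, hf, h0, hs⟩ := DecIn.path (dec_step e Ref c₀ hadd hlt hRef)
    (step_total Ref e c₀ V hdiv hV hc hc0) (0, [])
  obtain ⟨b, hinj, hran, h1, h2⟩ := limit_spec hdiv hV h0 hs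
  refine ⟨b, hinj, hran, ?_, ?_⟩
  · refine DecIn.of_iff (p := fun x : ℕ × ℕ =>
      ent c₀ (f (x.1 + x.2)) x.1 < ent c₀ (f (x.1 + x.2)) x.2) ?_ fun x => h1 _ _
    have h3 : CI O fun x : ℕ × ℕ => f (x.1 + x.2) :=
      hf.comp (CI.add' (CI.fst' CI.id) (CI.snd' CI.id))
    exact hlt.comp ((ci_ent e c₀ h3 (CI.fst' CI.id)).pair (ci_ent e c₀ h3 (CI.snd' CI.id)))
  · refine DecIn.of_iff (p := fun x : (ℕ × ℕ) × ℕ =>
      ent c₀ (f (x.1.1 + x.1.2 + x.2)) x.1.1 + ent c₀ (f (x.1.1 + x.1.2 + x.2)) x.1.2 =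
        ent c₀ (f (x.1.1 + x.1.2 + x.2)) x.2) ?_ fun x => h2 _ _ _
    have h4 : CI O fun x : (ℕ × ℕ) × ℕ => x.1.1 := CI.fst' (CI.fst' CI.id)
    have h5 : CI O fun x : (ℕ × ℕ) × ℕ => x.1.2 := CI.snd' (CI.fst' CI.id)
    have h6 : CI O fun x : (ℕ × ℕ) × ℕ => x.2 := CI.snd' CI.id
    have h3 : CI O fun x : (ℕ × ℕ) × ℕ => f (x.1.1 + x.1.2 + x.2) :=
      hf.comp (CI.add' (CI.add' h4 h5) h6)
    exact DecIn.eq (hadd.comp ((ci_ent e c₀ h3 h4).pair (ci_ent e c₀ h3 h5))) (ci_ent e c₀ h3 h6)

end Pool.Agent.Helper97.Spectra
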