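import Mathlib

/-!
# Copies, atomic diagrams and degree spectra

Structures in the language `(+, <, c₀, …, c_{k-1})` with `k` constant symbols.
-/

namespace Pool.Agent.Helper97.Spectra

/-- Closed terms of the language `(+, <, c₀, …, c_{k-1})` expanded by a name for every natural
number (the elements of the domain of a structure with domain `ℕ`). -/
inductive Tm (k : ℕ) : Type
  | elt (n : ℕ) : Tm k
  | cst (i : Fin k) : Tm k
  | add (s t : Tm k) : Tm k

/-- Atomic sentences: equations and inequalities between closed terms. -/
inductive Atom (k : ℕ) : Type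
  | eq (s t : Tm k) : Atom k
  | lt (s t : Tm k) : Atom k

variable {k : ℕ}

/-- The Gödel number of a closed term. -/
def Tm.code : Tm k → ℕ
  | elt n => k + 2 * n
  | cst i => i
  | add s t => k + (2 * Nat.pair s.code t.code + 1)

/-- The Gödel number of an atomic sentence. -/
def Atom.code : Atom k → ℕ
  | eq s t => 2 * Nat.pair s.code t.code
  | lt s t => 2 * Nat.pair s.code t.code + 1

/-- A structure with domain `ℕ` for the language `(+, <, c₀, …, c_{k-1})`. -/
structure Str (k : ℕ) : Type where
  /-- addition -/
  add : ℕ → ℕ → ℕ
  /-- the order relation -/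
  lt : ℕ → ℕ → Prop
  /-- the constants -/
  cst : Fin k → ℕ

/-- The value of a closed term. -/
def Str.eval (S : Str k) : Tm k → ℕ
  | .elt n => n
  | .cst i => S.cst i
  | .add s t => S.add (S.eval s) (S.eval t)

/-- Truth of an atomic sentence. -/
def Str.Holds (S : Str k) : Atom k → Prop
  | .eq s t => S.eval s = S.eval t
  | .lt s t => S.lt (S.eval s) (S.eval t)

/-- The atomic diagram, as a set of natural numbers. -/
def Str.diag (S : Str k) : Set ℕ := {n | ∃ φ : Atom k, φ.code = n ∧ S.Holds φ}

/-- `S` is isomorphic to the structure `(A, +, <, c)`. -/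
def Str.IsCopy (S : Str k) (A : Type*) [Add A] [LT A] (c : Fin k → A) : Prop :=
  ∃ f : ℕ ≃ A, (∀ a b, f (S.add a b) = f a + f b) ∧ (∀ a b, S.lt a b ↔ f a < f b) ∧
    ∀ i, f (S.cst i) = c i

open Classical in
/-- The characteristic function of a set of natural numbers. -/
noncomputable def chi (D : Set ℕ) (n : ℕ) : ℕ := if n ∈ D then 1 else 0

/-- The Turing degree of a set of natural numbers. -/
noncomputable def degree (D : Set ℕ) : TuringDegree :=
  toAntisymmetrization TuringReducible fun n => Part.some (chi D n)

/-- The degree spectrum of `(A, +, <, c)`: the set of Turing degrees of atomic diagrams of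
structures with domain `ℕ` isomorphic to it. -/
def DgSp (A : Type*) [Add A] [LT A] (c : Fin k → A) : Set TuringDegree :=
  {d | ∃ S : Str k, S.IsCopy A c ∧ d = degree S.diag}

end Pool.Agent.Helper97.Spectra
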