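import Pool.Agent.Helper97.Spectra.Defs
import Pool.Agent.Helper97.Spectra.Comp

/-!
# The atomic diagram and the basic relations have the same degree
-/

namespace Pool.Agent.Helper97.Spectra

open Encodable

variable {k : ℕ} {O : ℕ → ℕ}

/-- Course-of-values recursion. -/
theorem CI.strong_rec {β : Type} [Primcodable β] {F : ℕ → β} {g : ℕ × List β → β}
    (hg : CI O g) (H : ∀ n, F n = g (n, (List.range n).map F)) : CI O F := by
  have h := CI.nat_rec' (O := O) (f := fun n : ℕ => n) (g := fun _ => ([] : List β))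
    (h := fun _ x => x.2 ++ [g x]) CI.id (CI.const _)
    (CI.prim₂ Primrec.list_append (CI.snd' (CI.snd' CI.id))
      (CI.prim₂ Primrec.list_cons (hg.comp (CI.snd' CI.id)) (CI.const [])))
  have h' : CI O fun n : ℕ => (List.range n).map F := by
    refine h.of_eq fun n => ?_
    induction n with
    | zero => rfl
    | succ n ih =>
      rw [List.range_succ, List.map_append, List.map_singleton, H n]
      simp only [ih]
  exact (hg.comp (CI.id.pair h')).of_eq fun n => (H n).symm

theorem Str.ev_exists (S : Str k) (hadd : CI O fun x : ℕ × ℕ => S.add x.1 x.2) :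
    ∃ ev : ℕ → ℕ, CI O ev ∧ (∀ t : Tm k, ev t.code = S.eval t) ∧
      ∀ n, ∃ t : Tm k, t.code = n := by
  classical
  set cs : ℕ → ℕ := fun i => ((List.ofFn S.cst).getD i 0) with hcs
  have hcs' : ∀ i : Fin k, cs i = S.cst i := by
    intro i
    simp [hcs, List.getD_eq_getElem?_getD]
  set step : ℕ × List ℕ → ℕ := fun x =>
    if x.1 < k then cs x.1 else
      if (x.1 - k) % 2 = 0 then (x.1 - k) / 2 else
        S.add (x.2.getD ((x.1 - k) / 2).unpair.1 0) (x.2.getD ((x.1 - k) / 2).unpair.2 0)
    with hstep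
  have h1 : CI O fun x : ℕ × List ℕ => x.1 := CI.fst' CI.id
  have h2 : CI O fun x : ℕ × List ℕ => (x.1 - k) / 2 :=
    CI.prim₂ Primrec.nat_div (CI.prim₂ Primrec.nat_sub h1 (CI.const k)) (CI.const 2)
  have h3 : CI O fun x : ℕ × List ℕ => (x.1 - k) % 2 :=
    CI.prim₂ Primrec.nat_mod (CI.prim₂ Primrec.nat_sub h1 (CI.const k)) (CI.const 2)
  have h4 : CI O fun x : ℕ × List ℕ => x.2 := CI.snd' CI.id
  have hs : CI O step := by
    refine DecIn.ite (DecIn.lt h1 (CI.const k)) ?_ (DecIn.ite (DecIn.eq h3 (CI.const 0)) h2 ?_)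
    · exact CI.prim₂ (Primrec.list_getD 0) (CI.const _) h1
    · exact hadd.comp ((CI.prim₂ (Primrec.list_getD 0) h4 (CI.unpair_fst h2)).pair
        (CI.prim₂ (Primrec.list_getD 0) h4 (CI.unpair_snd h2)))
  -- the function defined by the recursion
  obtain ⟨ev, hev⟩ : ∃ ev : ℕ → ℕ, ∀ n, ev n = step (n, (List.range n).map ev) := by
    let F : ∀ n : ℕ, (∀ m < n, ℕ) → ℕ := fun n ih =>
      step (n, (List.range n).attach.map fun m => ih m.1 (List.mem_range.1 m.2))
    refine ⟨fun n => Nat.strongRecOn (motive := fun _ => ℕ) n F, fun n => ?_⟩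
    have e1 : Nat.strongRecOn (motive := fun _ => ℕ) n F =
        F n fun m _ => Nat.strongRecOn (motive := fun _ => ℕ) m F := Nat.strongRecOn_eq ..
    refine e1.trans ?_
    show step _ = step _
    congr 2
    exact List.attach_map_val (l := List.range n)
      (f := fun m => Nat.strongRecOn (motive := fun _ => ℕ) m F)
  have hget : ∀ n m, m < n → ((List.range n).map ev).getD m 0 = ev m := by
    intro n m hm
    simp [List.getD_eq_getElem?_getD, hm]
  refine ⟨ev, CI.strong_rec hs hev, fun t => ?_, fun n => ?_⟩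
  · induction t with
    | elt n =>
      rw [hev]
      simp [hstep, Tm.code, Str.eval]
    | cst i =>
      rw [hev]
      simp [hstep, Tm.code, Str.eval, hcs']
    | add s t ihs iht =>
      rw [hev]
      have e1 : ¬ (k + (2 * Nat.pair s.code t.code + 1) < k) := by omega
      have e2 : k + (2 * Nat.pair s.code t.code + 1) - k = 2 * Nat.pair s.code t.code + 1 := by
        omega
      have e3 : ¬ ((2 * Nat.pair s.code t.code + 1) % 2 = 0) := by omega
      have e4 : (2 * Nat.pair s.code t.code + 1) / 2 = Nat.pair s.code t.code := by omega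
      have e5 := Nat.left_le_pair s.code t.code
      have e6 := Nat.right_le_pair s.code t.code
      simp only [hstep, Tm.code, if_neg e1, e2, if_neg e3, e4, Nat.unpair_pair, Str.eval]
      rw [hget _ _ (by omega), hget _ _ (by omega), ihs, iht]
  · induction n using Nat.strong_induction_on with
    | _ n ih =>
      by_cases h : n < k
      · exact ⟨.cst ⟨n, h⟩, rfl⟩
      · rcases Nat.even_or_odd' (n - k) with ⟨m, hm | hm⟩
        · exact ⟨.elt m, by simp only [Tm.code]; omega⟩
        · have e5 := Nat.unpair_left_le m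
          have e6 := Nat.unpair_right_le m
          obtain ⟨s, hs⟩ := ih m.unpair.1 (by omega)
          obtain ⟨t, ht⟩ := ih m.unpair.2 (by omega)
          exact ⟨.add s t, by simp only [Tm.code, hs, ht, Nat.pair_unpair]; omega⟩

/-- The atomic diagram is decidable in the basic operations. -/
theorem Str.diag_dec (S : Str k) (hadd : CI O fun x : ℕ × ℕ => S.add x.1 x.2)
    (hlt : DecIn O fun x : ℕ × ℕ => S.lt x.1 x.2) : DecIn O fun n => n ∈ S.diag := by
  obtain ⟨ev, hev, h1, h2⟩ := S.ev_exists hadd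
  have h3 : CI O fun n : ℕ => n / 2 := CI.prim₂ Primrec.nat_div CI.id (CI.const 2)
  have h4 : CI O fun n : ℕ => n % 2 := CI.prim₂ Primrec.nat_mod CI.id (CI.const 2)
  have h5 := hev.comp (CI.unpair_fst h3)
  have h6 := hev.comp (CI.unpair_snd h3)
  refine (((DecIn.eq h4 (CI.const 0)).and (DecIn.eq h5 h6)).or
    ((DecIn.eq h4 (CI.const 1)).and (hlt.comp (h5.pair h6)))).of_iff fun n => ?_
  constructor
  · rintro ⟨φ, rfl, hφ⟩
    cases φ with
    | eq s t =>
      left
      have e1 : 2 * Nat.pair s.code t.code % 2 = 0 := by omega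
      have e2 : 2 * Nat.pair s.code t.code / 2 = Nat.pair s.code t.code := by omega
      simp only [Atom.code, e1, e2, Nat.unpair_pair, h1]
      exact ⟨trivial, hφ⟩
    | lt s t =>
      right
      have e1 : (2 * Nat.pair s.code t.code + 1) % 2 = 1 := by omega
      have e2 : (2 * Nat.pair s.code t.code + 1) / 2 = Nat.pair s.code t.code := by omega
      simp only [Atom.code, e1, e2, Nat.unpair_pair, h1]
      exact ⟨trivial, hφ⟩
  · obtain ⟨s, hs⟩ := h2 (n / 2).unpair.1
    obtain ⟨t, ht⟩ := h2 (n / 2).unpair.2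
    rintro (⟨h7, h8⟩ | ⟨h7, h8⟩)
    · refine ⟨.eq s t, ?_, ?_⟩
      · simp only [Atom.code, hs, ht, Nat.pair_unpair]; omega
      · show S.eval s = S.eval t
        rw [← h1, ← h1, hs, ht]; exact h8
    · refine ⟨.lt s t, ?_, ?_⟩
      · simp only [Atom.code, hs, ht, Nat.pair_unpair]; omega
      · show S.lt (S.eval s) (S.eval t)
        rw [← h1, ← h1, hs, ht]; exact h8

theorem Tm.code_inj : ∀ s t : Tm k, s.code = t.code → s = t
  | .elt n, .elt m, h => by simp only [Tm.code] at h; congr 1; omega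
  | .elt n, .cst i, h => by simp only [Tm.code] at h; have := i.2; omega
  | .elt n, .add s t, h => by simp only [Tm.code] at h; omega
  | .cst i, .elt n, h => by simp only [Tm.code] at h; have := i.2; omega
  | .cst i, .cst j, h => by simp only [Tm.code] at h; congr 1; exact Fin.ext h
  | .cst i, .add s t, h => by simp only [Tm.code] at h; have := i.2; omega
  | .add s t, .elt n, h => by simp only [Tm.code] at h; omega
  | .add s t, .cst i, h => by simp only [Tm.code] at h; have := i.2; omega
  | .add s t, .add s' t', h => by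
    simp only [Tm.code] at h
    have h' : Nat.pair s.code t.code = Nat.pair s'.code t'.code := by omega
    rw [Nat.pair_eq_pair] at h'
    rw [Tm.code_inj s s' h'.1, Tm.code_inj t t' h'.2]

theorem Atom.code_inj (φ ψ : Atom k) (h : φ.code = ψ.code) : φ = ψ := by
  cases φ with
  | eq s t =>
    cases ψ with
    | eq s' t' =>
      simp only [Atom.code] at h
      have h' : Nat.pair s.code t.code = Nat.pair s'.code t'.code := by omega
      rw [Nat.pair_eq_pair] at h'
      rw [Tm.code_inj _ _ h'.1, Tm.code_inj _ _ h'.2]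
    | lt s' t' => simp only [Atom.code] at h; omega
  | lt s t =>
    cases ψ with
    | eq s' t' => simp only [Atom.code] at h; omega
    | lt s' t' =>
      simp only [Atom.code] at h
      have h' : Nat.pair s.code t.code = Nat.pair s'.code t'.code := by omega
      rw [Nat.pair_eq_pair] at h'
      rw [Tm.code_inj _ _ h'.1, Tm.code_inj _ _ h'.2]

theorem Str.mem_diag (S : Str k) (φ : Atom k) : φ.code ∈ S.diag ↔ S.Holds φ := by
  constructor
  · rintro ⟨ψ, h, hψ⟩
    rwa [← Atom.code_inj _ _ h]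
  · exact fun h => ⟨φ, rfl, h⟩

theorem chi_dec (D : Set ℕ) : DecIn (chi D) fun n => n ∈ D := by
  have h : DecIn (chi D) fun n : ℕ => chi D n = 1 := DecIn.eq CI.oracle (CI.const 1)
  refine h.of_iff fun n => ?_
  unfold chi
  split_ifs with h <;> simp [h]

theorem chi_ci {D : Set ℕ} (h : DecIn O fun n => n ∈ D) : CI O (chi D) := by
  classical
  refine (DecIn.ite h (CI.const 1) (CI.const 0)).of_eq fun n => ?_
  unfold chi
  split_ifs <;> rfl

/-- The order is decidable in the diagram. -/
theorem Str.lt_dec (S : Str k) : DecIn (chi S.diag) fun x : ℕ × ℕ => S.lt x.1 x.2 := by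
  have h1 : CI (chi S.diag) fun x : ℕ × ℕ => x.1 := CI.fst' CI.id
  have h2 : CI (chi S.diag) fun x : ℕ × ℕ => x.2 := CI.snd' CI.id
  have hmul : ∀ {α : Type} [Primcodable α] {f : α → ℕ}, CI (chi S.diag) f →
    CI (chi S.diag) fun a => 2 * f a := fun hf => CI.prim₂ Primrec.nat_mul (CI.const 2) hf
  have h3 : CI (chi S.diag) fun x : ℕ × ℕ => (Atom.lt (Tm.elt x.1) (Tm.elt x.2) : Atom k).code :=
    CI.succ' (hmul (CI.prim₂ Primrec₂.natPair (CI.add' (CI.const k) (hmul h1))
      (CI.add' (CI.const k) (hmul h2))))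
  exact ((chi_dec S.diag).comp h3).of_iff fun x =>
    (S.mem_diag (.lt (.elt x.1) (.elt x.2))).symm

/-- Addition is computable in the diagram. -/
theorem Str.add_ci (S : Str k) : CI (chi S.diag) fun x : ℕ × ℕ => S.add x.1 x.2 := by
  have h1 : CI (chi S.diag) fun x : (ℕ × ℕ) × ℕ => x.1.1 := CI.fst' (CI.fst' CI.id)
  have h2 : CI (chi S.diag) fun x : (ℕ × ℕ) × ℕ => x.1.2 := CI.snd' (CI.fst' CI.id)
  have h2' : CI (chi S.diag) fun x : (ℕ × ℕ) × ℕ => x.2 := CI.snd' CI.id
  have hmul : ∀ {α : Type} [Primcodable α] {f : α → ℕ}, CI (chi S.diag) f →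
    CI (chi S.diag) fun a => 2 * f a := fun hf => CI.prim₂ Primrec.nat_mul (CI.const 2) hf
  have h3 : CI (chi S.diag) fun x : (ℕ × ℕ) × ℕ =>
      (Atom.eq (Tm.add (Tm.elt x.1.1) (Tm.elt x.1.2)) (Tm.elt x.2) : Atom k).code :=
    hmul (CI.prim₂ Primrec₂.natPair (CI.add' (CI.const k) (CI.succ' (hmul
      (CI.prim₂ Primrec₂.natPair (CI.add' (CI.const k) (hmul h1))
      (CI.add' (CI.const k) (hmul h2)))))) (CI.add' (CI.const k) (hmul h2')))
  have h4 : DecIn (chi S.diag) fun x : (ℕ × ℕ) × ℕ => S.add x.1.1 x.1.2 = x.2 :=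
    ((chi_dec S.diag).comp h3).of_iff fun x =>
      (S.mem_diag (.eq (.add (.elt x.1.1) (.elt x.1.2)) (.elt x.2))).symm
  obtain ⟨g, hg, hg'⟩ := DecIn.find (p := fun (x : ℕ × ℕ) n => S.add x.1 x.2 = n) h4
    fun x => ⟨_, rfl⟩
  exact hg.of_eq fun x => (hg' x).1.symm

theorem degree_eq {D E : Set ℕ} (h1 : DecIn (chi E) fun n => n ∈ D)
    (h2 : DecIn (chi D) fun n => n ∈ E) : degree D = degree E := by
  refine Quotient.sound ⟨?_, ?_⟩
  · exact RecursiveIn.iff_nat.2 (CI.nat_iff.1 (chi_ci h1))
  · exact RecursiveIn.iff_nat.2 (CI.nat_iff.1 (chi_ci h2))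

end Pool.Agent.Helper97.Spectra
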