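import Mathlib

/-!
# Nontrivial divisible ordered groups are existentially closed in ordered groups

`ec`: a finite list of elements of an ordered abelian group `G` can be replaced by a list of
elements of a nontrivial divisible subgroup `W`, preserving positivity and vanishing of finitely
many linear forms with integer coefficients and constant terms in `W`.
-/

namespace Pool.Agent.Helper97.Spectra

section

variable {G : Type*} [AddCommGroup G]

/-- The value of a linear form at a list of elements. -/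
def val : (ℕ → ℤ) → List G → G
  | _, [] => 0
  | a, x :: zs => a 0 • x + val (fun n => a (n + 1)) zs

theorem val_sub (m n : ℤ) (z : List G) : ∀ a b : ℕ → ℤ,
    val (fun i => m * a i - n * b i) z = m • val a z - n • val b z := by
  induction z with
  | nil => intro a b; simp [val]
  | cons x zs ih =>
    intro a b
    simp only [val, ih, smul_add, sub_smul, mul_smul]
    abel

theorem val_zero (z : List G) : val (fun _ => 0) z = 0 := by
  induction z with
  | nil => rfl
  | cons x zs ih => simp [val, ih]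

theorem val_single (i : ℕ) (z : List G) : val (Pi.single i 1) z = z.getD i 0 := by
  induction z generalizing i with
  | nil => simp [val]
  | cons x zs ih =>
    cases i with
    | zero =>
      have : (fun n : ℕ => (Pi.single 0 1 : ℕ → ℤ) (n + 1)) = fun _ => 0 := by
        funext n; simp
      rw [val, this, val_zero]; simp
    | succ i =>
      have : (fun n : ℕ => (Pi.single (i + 1) 1 : ℕ → ℤ) (n + 1)) = Pi.single i 1 := by
        funext n; simp [Pi.single_apply]
      simp [val, this, ih]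

theorem val_mem (W : AddSubgroup G) (z : List G) (h : ∀ x ∈ z, x ∈ W) (a : ℕ → ℤ) :
    val a z ∈ W := by
  induction z generalizing a with
  | nil => exact W.zero_mem
  | cons x zs ih =>
    exact W.add_mem (W.zsmul_mem (h x (by simp)) _) (ih (fun y hy => h y (by simp [hy])) _)

end

variable {G : Type*} [AddCommGroup G] [LinearOrder G] [IsOrderedAddMonoid G]

theorem zsmul_pos' {m : ℤ} (hm : 0 < m) {y : G} : 0 < m • y ↔ 0 < y := by
  lift m to ℕ using hm.le
  have hm' : m ≠ 0 := by rintro rfl; simp at hm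
  rw [natCast_zsmul]
  exact ⟨fun h => by
    by_contra h'
    exact absurd h (not_lt.2 (nsmul_nonpos (not_lt.1 h') m)), fun h => nsmul_pos h hm'⟩

theorem zsmul_eq_zero' {m : ℤ} (hm : m ≠ 0) {y : G} : m • y = 0 ↔ y = 0 := by
  constructor
  · intro h
    rcases lt_trichotomy y 0 with h' | h' | h'
    · rcases hm.lt_or_gt with h1 | h1
      · have := (zsmul_pos' (neg_pos.2 h1)).2 (neg_pos.2 h')
        simp [h] at this
      · have := (zsmul_pos' h1).2 (neg_pos.2 h')
        simp [h] at this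
    · exact h'
    · rcases hm.lt_or_gt with h1 | h1
      · have := (zsmul_pos' (neg_pos.2 h1)).2 h'
        simp [h] at this
      · have := (zsmul_pos' h1).2 h'
        simp [h] at this
  · rintro rfl; simp

omit [LinearOrder G] [IsOrderedAddMonoid G] in
theorem exists_root (W : AddSubgroup G)
    (hdiv : ∀ n : ℕ, 0 < n → ∀ w ∈ W, ∃ v ∈ W, n • v = w) {m : ℤ} (hm : m ≠ 0) {w : G}
    (hw : w ∈ W) : ∃ v ∈ W, m • v = w := by
  rcases hm.lt_or_gt with h | h
  · obtain ⟨v, hv, h'⟩ := hdiv m.natAbs (Int.natAbs_pos.2 hm) (-w) (W.neg_mem hw)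
    refine ⟨v, hv, ?_⟩
    have : (m.natAbs : ℤ) • v = -w := by rw [natCast_zsmul]; exact h'
    rw [Int.ofNat_natAbs_of_nonpos h.le, neg_smul] at this
    exact neg_injective this
  · obtain ⟨v, hv, h'⟩ := hdiv m.natAbs (Int.natAbs_pos.2 hm) w hw
    refine ⟨v, hv, ?_⟩
    have : (m.natAbs : ℤ) • v = w := by rw [natCast_zsmul]; exact h'
    rwa [Int.natAbs_of_nonneg h.le] at this

theorem between (W : AddSubgroup G)
    (hdiv : ∀ n : ℕ, 0 < n → ∀ w ∈ W, ∃ v ∈ W, n • v = w) (hne : ∃ w ∈ W, w ≠ 0)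
    (lo hi : Set W) (hlo : lo.Finite) (hhi : hi.Finite) (h : ∀ x ∈ lo, ∀ y ∈ hi, x < y) :
    ∃ m : W, (∀ x ∈ lo, x < m) ∧ ∀ y ∈ hi, m < y := by
  obtain ⟨w, hw⟩ : ∃ w : W, 0 < w := by
    obtain ⟨w, hw, h0⟩ := hne
    rcases lt_or_gt_of_ne h0 with h | h
    · exact ⟨-⟨w, hw⟩, neg_pos.2 h⟩
    · exact ⟨⟨w, hw⟩, h⟩
  have i1 : NoMaxOrder W := ⟨fun a => ⟨a + w, lt_add_of_pos_right a hw⟩⟩
  have i2 : NoMinOrder W := ⟨fun a => ⟨a - w, sub_lt_self a hw⟩⟩
  have i3 : DenselyOrdered W := ⟨fun a b hab => by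
    obtain ⟨v, hv, h'⟩ := hdiv 2 (by norm_num) ((a : G) + b) (W.add_mem a.2 b.2)
    have hab' : (a : G) < b := hab
    rw [two_nsmul] at h'
    refine ⟨⟨v, hv⟩, ?_, ?_⟩
    · show (a : G) < v
      by_contra h1
      have h1 := not_lt.1 h1
      have : v + v < (a : G) + b := add_lt_add_of_le_of_lt h1 (h1.trans_lt hab')
      exact absurd h' this.ne
    · show v < (b : G)
      by_contra h1
      have h1 := not_lt.1 h1
      have : (a : G) + b < v + v := add_lt_add_of_lt_of_le (hab'.trans_le h1) h1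
      exact absurd h' this.ne'⟩
  obtain ⟨m, h1, h2⟩ := Order.exists_between_finsets hlo.toFinset hhi.toFinset
    (by simpa using h)
  exact ⟨m, by simpa using h1, by simpa using h2⟩

/-- Existential closedness. -/
theorem ec (W : AddSubgroup G) (hdiv : ∀ n : ℕ, 0 < n → ∀ w ∈ W, ∃ v ∈ W, n • v = w)
    (hne : ∃ w ∈ W, w ≠ 0) (z : List G) : ∀ T : Set ((ℕ → ℤ) × G), T.Finite →
    (∀ t ∈ T, t.2 ∈ W) → ∃ z' : List G, z'.length = z.length ∧ (∀ x ∈ z', x ∈ W) ∧
      ∀ t ∈ T, (0 < val t.1 z + t.2 → 0 < val t.1 z' + t.2) ∧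
        (val t.1 z + t.2 = 0 → val t.1 z' + t.2 = 0) := by
  induction z with
  | nil => exact fun T _ _ => ⟨[], rfl, by simp, fun t _ => ⟨id, id⟩⟩
  | cons x zs ih =>
    intro T hfin hT
    by_cases hA : ∃ t₀ ∈ T, t₀.1 0 ≠ 0 ∧ val t₀.1 (x :: zs) + t₀.2 = 0
    · obtain ⟨t₀, ht₀, hn₀, hv₀⟩ := hA
      obtain ⟨zs', hlen, hmem, hz⟩ := ih ((fun t : (ℕ → ℤ) × G =>
        ((fun i => (t₀.1 0 * t₀.1 0) * t.1 (i + 1) - (t₀.1 0 * t.1 0) * t₀.1 (i + 1) : ℕ → ℤ),
        (t₀.1 0 * t₀.1 0) • t.2 - (t₀.1 0 * t.1 0) • t₀.2)) '' T) (hfin.image _) (by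
          rintro _ ⟨t, ht, rfl⟩
          exact W.sub_mem (W.zsmul_mem (hT t ht) _) (W.zsmul_mem (hT _ ht₀) _))
      obtain ⟨x', hx', hx⟩ := exists_root W hdiv hn₀
        (W.neg_mem (W.add_mem (val_mem W zs' hmem fun i => t₀.1 (i + 1)) (hT _ ht₀)))
      refine ⟨x' :: zs', by simp [hlen], by simpa using ⟨hx', hmem⟩, fun t ht => ?_⟩
      have key : ∀ (y : G) (ys : List G), val t₀.1 (y :: ys) + t₀.2 = 0 →
          val (fun i => (t₀.1 0 * t₀.1 0) * t.1 (i + 1) - (t₀.1 0 * t.1 0) * t₀.1 (i + 1)) ys +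
            ((t₀.1 0 * t₀.1 0) • t.2 - (t₀.1 0 * t.1 0) • t₀.2) =
          (t₀.1 0 * t₀.1 0) • (val t.1 (y :: ys) + t.2) := by
        intro y ys h0
        have h1 : (t₀.1 0 * t.1 0) • (val t₀.1 (y :: ys) + t₀.2) = 0 := by rw [h0, smul_zero]
        rw [val_sub, ← sub_zero (((t₀.1 0 * t₀.1 0) • (val t.1 (y :: ys) + t.2))), ← h1]
        simp only [val, smul_add, mul_smul]
        rw [smul_comm (t.1 0) (t₀.1 0) y]
        abel
      have hnn : 0 < t₀.1 0 * t₀.1 0 := mul_self_pos.2 hn₀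
      have h' : val t₀.1 (x' :: zs') + t₀.2 = 0 := by
        simp only [val]
        rw [hx]; abel
      have hz' := hz _ ⟨t, ht, rfl⟩
      simp only at hz'
      rw [key _ _ h', key _ _ hv₀, zsmul_pos' hnn, zsmul_pos' hnn, zsmul_eq_zero' hnn.ne',
        zsmul_eq_zero' hnn.ne'] at hz'
      exact hz'
    · push Not at hA
      obtain ⟨zs', hlen, hmem, hz⟩ := ih
        ((fun t : (ℕ → ℤ) × G => ((fun i => t.1 (i + 1) : ℕ → ℤ), t.2)) '' T ∪
        Set.image2 (fun t s : (ℕ → ℤ) × G =>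
        ((fun i => t.1 0 * s.1 (i + 1) - s.1 0 * t.1 (i + 1) : ℕ → ℤ),
          t.1 0 • s.2 - s.1 0 • t.2)) T T) ((hfin.image _).union (hfin.image2 _ hfin)) (by
          rintro _ (⟨t, ht, rfl⟩ | ⟨t, ht, s, hs, rfl⟩)
          · exact hT t ht
          · exact W.sub_mem (W.zsmul_mem (hT _ hs) _) (W.zsmul_mem (hT _ ht) _))
      have hroot : ∀ t : (ℕ → ℤ) × G, ∃ r : W, t ∈ T → t.1 0 ≠ 0 →
          t.1 0 • (r : G) = -(val (fun i => t.1 (i + 1)) zs' + t.2) := by
        intro t
        by_cases ht : t ∈ T ∧ t.1 0 ≠ 0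
        · obtain ⟨r, hr, hr'⟩ := exists_root W hdiv ht.2
            (W.neg_mem (W.add_mem (val_mem W zs' hmem fun i => t.1 (i + 1)) (hT _ ht.1)))
          exact ⟨⟨r, hr⟩, fun _ _ => hr'⟩
        · exact ⟨0, fun h1 h2 => absurd ⟨h1, h2⟩ ht⟩
      choose r hr using hroot
      obtain ⟨x', h1, h2⟩ := between W hdiv hne
        (r '' {t | t ∈ T ∧ 0 < val t.1 (x :: zs) + t.2 ∧ 0 < t.1 0})
        (r '' {t | t ∈ T ∧ 0 < val t.1 (x :: zs) + t.2 ∧ t.1 0 < 0})
        ((hfin.subset fun t ht => ht.1).image _) ((hfin.subset fun t ht => ht.1).image _) (by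
          rintro _ ⟨t, ⟨ht, hpt, hnt⟩, rfl⟩ _ ⟨s, ⟨hs, hps, hns⟩, rfl⟩
          have h3 := (hz _ (Or.inr ⟨t, ht, s, hs, rfl⟩)).1
          simp only [val_sub] at h3
          have h4 : ∀ ys : List G, t.1 0 • val (fun i => s.1 (i + 1)) ys -
              s.1 0 • val (fun i => t.1 (i + 1)) ys + (t.1 0 • s.2 - s.1 0 • t.2) =
              t.1 0 • (val (fun i => s.1 (i + 1)) ys + s.2) +
                (- s.1 0) • (val (fun i => t.1 (i + 1)) ys + t.2) := by
            intro ys
            simp only [smul_add, neg_smul]; abel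
          have h5 : t.1 0 • (val (fun i => s.1 (i + 1)) zs + s.2) +
                (- s.1 0) • (val (fun i => t.1 (i + 1)) zs + t.2) =
              t.1 0 • (val s.1 (x :: zs) + s.2) + (- s.1 0) • (val t.1 (x :: zs) + t.2) := by
            simp only [val, smul_add, neg_smul]
            rw [smul_comm (t.1 0) (s.1 0) x]; abel
          have h6 : t.1 0 • (val (fun i => s.1 (i + 1)) zs' + s.2) +
                (- s.1 0) • (val (fun i => t.1 (i + 1)) zs' + t.2) =
              (t.1 0 * - s.1 0) • ((r s : G) - r t) := by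
            have e1 := hr t ht hnt.ne'
            have e2 := hr s hs hns.ne
            rw [← neg_eq_iff_eq_neg] at e1 e2
            rw [← e1, ← e2]
            simp only [smul_neg, smul_sub, mul_smul, neg_smul]
            rw [smul_comm (t.1 0) (s.1 0) (r t : G)]; abel
          rw [h4, h4, h5, h6, zsmul_pos' (mul_pos hnt (neg_pos.2 hns)), sub_pos] at h3
          exact h3 (add_pos ((zsmul_pos' hnt).2 hps) ((zsmul_pos' (neg_pos.2 hns)).2 hpt)))
      refine ⟨x' :: zs', by simp [hlen], by simpa using hmem, fun t ht => ?_⟩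
      by_cases hn : t.1 0 = 0
      · have h3 := hz _ (Or.inl ⟨t, ht, rfl⟩)
        simpa [val, hn] using h3
      · refine ⟨fun hpos => ?_, fun h0 => absurd h0 (hA t ht hn)⟩
        have e1 := hr t ht hn
        have e2 : val t.1 ((x' : G) :: zs') + t.2 = t.1 0 • ((x' : G) - r t) := by
          rw [smul_sub, e1]; simp only [val]; abel
        rw [e2]
        rcases lt_or_gt_of_ne hn with h3 | h3
        · have h4 : (x' : G) < r t := h2 _ ⟨t, ⟨ht, hpos, h3⟩, rfl⟩
          have := (zsmul_pos' (neg_pos.2 h3)).2 (sub_pos.2 h4)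
          rw [neg_smul, ← smul_neg, neg_sub] at this
          exact this
        · have h4 : (r t : G) < x' := h1 _ ⟨t, ⟨ht, hpos, h3⟩, rfl⟩
          exact (zsmul_pos' h3).2 (sub_pos.2 h4)

end Pool.Agent.Helper97.Spectra
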