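import Pool.Agent.Helper97.Spectra.Diag

/-!
# Equality of the degree spectra of `V` and of `V × ℤ`
-/

namespace Pool.Agent.Helper97.Spectra

open Encodable

/-! ### Coding an oracle into a copy -/

/-- If an ordered group has an enumeration computable in `D`, then it has a copy of the degree
of `D`. -/
theorem exists_copy_degree {k : ℕ} {A : Type*} [AddCommGroup A] [LinearOrder A] (c : Fin k → A)
    (D : Set ℕ) (w : ℕ ≃ A) (hlt : DecIn (chi D) fun x : ℕ × ℕ => w x.1 < w x.2)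
    (hadd : DecIn (chi D) fun x : (ℕ × ℕ) × ℕ => w x.1.1 + w x.1.2 = w x.2) :
    ∃ S : Str k, S.IsCopy A c ∧ degree D = degree S.diag := by
  classical
  set σ : ℕ → ℕ := fun n => if ((w (2 * (n / 2)) < w (2 * (n / 2) + 1)) ↔ n / 2 ∈ D) then n else
    if n % 2 = 0 then n + 1 else n - 1 with hσ
  have hinv : ∀ n, σ (σ n) = n := by
    intro n
    by_cases h : ((w (2 * (n / 2)) < w (2 * (n / 2) + 1)) ↔ n / 2 ∈ D)
    · have : σ n = n := by simp only [hσ, if_pos h]
      rw [this, this]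
    · by_cases h2 : n % 2 = 0
      · have e1 : σ n = n + 1 := by simp only [hσ, if_neg h, if_pos h2]
        rw [e1]
        have e2 : (n + 1) / 2 = n / 2 := by omega
        have e3 : ¬ ((n + 1) % 2 = 0) := by omega
        simp only [hσ, e2, if_neg h, if_neg e3]; omega
      · have e1 : σ n = n - 1 := by simp only [hσ, if_neg h, if_neg h2]
        rw [e1]
        have e2 : (n - 1) / 2 = n / 2 := by omega
        have e3 : (n - 1) % 2 = 0 := by omega
        simp only [hσ, e2, if_neg h, if_pos e3]; omega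
  -- computability of `σ` and of addition
  have hσc : CI (chi D) σ := by
    have h1 : CI (chi D) fun n : ℕ => n := CI.id
    have h2 : CI (chi D) fun n : ℕ => n / 2 := CI.prim₂ Primrec.nat_div h1 (CI.const 2)
    have h3 : CI (chi D) fun n : ℕ => n % 2 := CI.prim₂ Primrec.nat_mod h1 (CI.const 2)
    have h4 : CI (chi D) fun n : ℕ => 2 * (n / 2) := CI.prim₂ Primrec.nat_mul (CI.const 2) h2
    refine DecIn.ite ((hlt.comp (h4.pair (CI.succ' h4))).iff ((chi_dec D).comp h2)) h1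
      (DecIn.ite (DecIn.eq h3 (CI.const 0)) (CI.succ' h1)
        (CI.prim₂ Primrec.nat_sub h1 (CI.const 1)))
  have haddc : CI (chi D) fun x : ℕ × ℕ => w.symm (w x.1 + w x.2) := by
    obtain ⟨g, hg, hg'⟩ := DecIn.find (p := fun (x : ℕ × ℕ) n => w x.1 + w x.2 = w n) hadd
      fun x => ⟨w.symm (w x.1 + w x.2), by simp⟩
    refine hg.of_eq fun x => ?_
    rw [(hg' x).1, w.symm_apply_apply]
  let σe : ℕ ≃ ℕ := ⟨σ, σ, hinv, hinv⟩
  let S : Str k := ⟨fun a b => σ (w.symm (w (σ a) + w (σ b))), fun a b => w (σ a) < w (σ b),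
    fun i => σ (w.symm (c i))⟩
  have h1 : CI (chi D) fun x : ℕ × ℕ => σ x.1 := hσc.comp (CI.fst' CI.id)
  have h2 : CI (chi D) fun x : ℕ × ℕ => σ x.2 := hσc.comp (CI.snd' CI.id)
  have hSadd : CI (chi D) fun x : ℕ × ℕ => S.add x.1 x.2 :=
    hσc.comp (haddc.comp (h1.pair h2))
  have hSlt : DecIn (chi D) fun x : ℕ × ℕ => S.lt x.1 x.2 := hlt.comp (h1.pair h2)
  refine ⟨S, ⟨σe.trans w, fun a b => ?_, fun a b => Iff.rfl, fun i => ?_⟩, ?_⟩
  · show w (σ (σ (w.symm (w (σ a) + w (σ b))))) = w (σ a) + w (σ b)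
    rw [hinv, w.apply_symm_apply]
  · show w (σ (σ (w.symm (c i)))) = c i
    rw [hinv, w.apply_symm_apply]
  · refine degree_eq ?_ (S.diag_dec hSadd hSlt)
    have h3 : CI (chi S.diag) fun n : ℕ => 2 * n :=
      CI.prim₂ Primrec.nat_mul (CI.const 2) CI.id
    refine (S.lt_dec.comp (h3.pair (CI.succ' h3))).of_iff fun m => ?_
    show m ∈ D ↔ w (σ (2 * m)) < w (σ (2 * m + 1))
    have e1 : 2 * m / 2 = m := by omega
    have e2 : (2 * m + 1) / 2 = m := by omega
    have e3 : 2 * m % 2 = 0 := by omega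
    have e4 : ¬ ((2 * m + 1) % 2 = 0) := by omega
    by_cases h : ((w (2 * m) < w (2 * m + 1)) ↔ m ∈ D)
    · simp only [hσ, e1, e2, if_pos h]; exact h.symm
    · simp only [hσ, e1, e2, if_neg h, if_pos e3, if_neg e4, Nat.add_sub_cancel]
      have hne : w (2 * m) ≠ w (2 * m + 1) := fun h' => by
        have := w.injective h'
        omega
      rcases lt_or_gt_of_ne hne with h' | h'
      · have : m ∉ D := fun hm => h ⟨fun _ => hm, fun _ => h'⟩
        exact ⟨fun hm => absurd hm this, fun h'' => absurd h' (not_lt.2 h''.le)⟩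
      · refine ⟨fun _ => h', fun _ => ?_⟩
        by_contra hm
        exact h ⟨fun h'' => absurd h' (not_lt.2 h''.le), fun h'' => absurd h'' hm⟩

/-! ### Integers -/

/-- The enumeration `0, -1, 1, -2, 2, …` of the integers. -/
def iota : ℕ ≃ ℤ := Equiv.intEquivNat.symm

theorem iota_even (m : ℕ) : iota (2 * m) = m := by
  unfold iota
  rw [Equiv.symm_apply_eq]
  rfl

theorem iota_odd (m : ℕ) : iota (2 * m + 1) = -((m : ℤ) + 1) := by
  unfold iota
  rw [Equiv.symm_apply_eq, ← Int.negSucc_eq]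
  rfl

/-- positive part -/
def ipos (n : ℕ) : ℕ := if n % 2 = 0 then n / 2 else 0

/-- negative part -/
def ineg (n : ℕ) : ℕ := if n % 2 = 0 then 0 else n / 2 + 1

theorem iota_eq (n : ℕ) : iota n = (ipos n : ℤ) - ineg n := by
  unfold ipos ineg
  rcases Nat.even_or_odd' n with ⟨m, rfl | rfl⟩
  · rw [iota_even, if_pos (by omega), if_pos (by omega)]
    have : 2 * m / 2 = m := by omega
    rw [this]; simp
  · rw [iota_odd, if_neg (by omega), if_neg (by omega)]
    have : (2 * m + 1) / 2 = m := by omega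
    rw [this]; push_cast; ring

theorem ci_ipos {O : ℕ → ℕ} {α : Type*} [Primcodable α] {f : α → ℕ} (hf : CI O f) :
    CI O fun a => ipos (f a) := by
  have h1 : CI O fun a => f a / 2 := CI.prim₂ Primrec.nat_div hf (CI.const 2)
  have h2 : CI O fun a => f a % 2 := CI.prim₂ Primrec.nat_mod hf (CI.const 2)
  exact DecIn.ite (DecIn.eq h2 (CI.const 0)) h1 (CI.const 0)

theorem ci_ineg {O : ℕ → ℕ} {α : Type*} [Primcodable α] {f : α → ℕ} (hf : CI O f) :
    CI O fun a => ineg (f a) := by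
  have h1 : CI O fun a => f a / 2 := CI.prim₂ Primrec.nat_div hf (CI.const 2)
  have h2 : CI O fun a => f a % 2 := CI.prim₂ Primrec.nat_mod hf (CI.const 2)
  exact DecIn.ite (DecIn.eq h2 (CI.const 0)) (CI.const 0) (CI.succ' h1)

theorem iota_lt_dec {O : ℕ → ℕ} {α : Type*} [Primcodable α] {f g : α → ℕ} (hf : CI O f)
    (hg : CI O g) : DecIn O fun a => iota (f a) < iota (g a) := by
  refine (DecIn.lt (CI.add' (ci_ipos hf) (ci_ineg hg)) (CI.add' (ci_ipos hg)
    (ci_ineg hf))).of_iff fun a => ?_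
  rw [iota_eq, iota_eq]; omega

theorem iota_add_ci (O : ℕ → ℕ) : CI O fun x : ℕ × ℕ => iota.symm (iota x.1 + iota x.2) := by
  have h1 : CI O fun x : (ℕ × ℕ) × ℕ => x.1.1 := CI.fst' (CI.fst' CI.id)
  have h2 : CI O fun x : (ℕ × ℕ) × ℕ => x.1.2 := CI.snd' (CI.fst' CI.id)
  have h3 : CI O fun x : (ℕ × ℕ) × ℕ => x.2 := CI.snd' CI.id
  have h4 : DecIn O fun x : (ℕ × ℕ) × ℕ => iota x.1.1 + iota x.1.2 = iota x.2 := by
    refine (DecIn.eq (CI.add' (CI.add' (ci_ipos h1) (ci_ipos h2)) (ci_ineg h3))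
      (CI.add' (CI.add' (ci_ineg h1) (ci_ineg h2)) (ci_ipos h3))).of_iff fun a => ?_
    rw [iota_eq, iota_eq, iota_eq]; omega
  obtain ⟨g, hg, hg'⟩ := DecIn.find (p := fun (x : ℕ × ℕ) n => iota x.1 + iota x.2 = iota n) h4
    fun x => ⟨iota.symm (iota x.1 + iota x.2), by simp⟩
  refine hg.of_eq fun x => ?_
  rw [(hg' x).1, iota.symm_apply_apply]

/-! ### The two inclusions -/

variable {V : Type*} [AddCommGroup V] [LinearOrder V] [IsOrderedAddMonoid V]

omit [LinearOrder V] [IsOrderedAddMonoid V] in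
theorem add_lex (v v' : V) (m m' : ℤ) :
    (toLex (v, m) + toLex (v', m') : V ×ₗ ℤ) = toLex (v + v', m + m') := rfl

omit [LinearOrder V] [IsOrderedAddMonoid V] in
theorem smul_lex (n : ℕ) (v : V) (m : ℤ) :
    n • (toLex (v, m) : V ×ₗ ℤ) = toLex (n • v, n * m) := by
  induction n with
  | zero => simp; rfl
  | succ n ih =>
    rw [succ_nsmul, ih, add_lex, succ_nsmul]
    push_cast
    rw [add_mul, one_mul]

omit [IsOrderedAddMonoid V] in
/-- The easy inclusion. -/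
theorem dgSp_subset : DgSp V ![0] ⊆ DgSp (V ×ₗ ℤ) ![0, toLex (0, 1)] := by
  rintro _ ⟨S, ⟨f, hf1, hf2, -⟩, rfl⟩
  let g : ℕ ≃ V ×ₗ ℤ := Nat.pairEquiv.symm.trans ((Equiv.prodCongr f iota).trans toLex)
  have hg : ∀ n, g n = toLex (f n.unpair.1, iota n.unpair.2) := fun n => rfl
  let c : Fin 2 → V ×ₗ ℤ := ![0, toLex (0, 1)]
  let S' : Str 2 := ⟨fun a b => g.symm (g a + g b), fun a b => g a < g b, fun i => g.symm (c i)⟩
  refine ⟨S', ⟨g, fun a b => g.apply_symm_apply _, fun a b => Iff.rfl,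
    fun i => g.apply_symm_apply _⟩, ?_⟩
  have hadd : ∀ a b, S'.add a b = Nat.pair (S.add a.unpair.1 b.unpair.1)
      (iota.symm (iota a.unpair.2 + iota b.unpair.2)) := by
    intro a b
    show g.symm (g a + g b) = _
    rw [Equiv.symm_apply_eq, hg, hg, hg, Nat.unpair_pair]
    simp only [hf1, Equiv.apply_symm_apply]
    rfl
  have hlt : ∀ a b, S'.lt a b ↔ S.lt a.unpair.1 b.unpair.1 ∨
      (a.unpair.1 = b.unpair.1 ∧ iota a.unpair.2 < iota b.unpair.2) := by
    intro a b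
    show g a < g b ↔ _
    rw [hg, hg, Prod.Lex.toLex_lt_toLex, hf2, f.injective.eq_iff]
  refine degree_eq (S.diag_dec ?_ ?_) (S'.diag_dec ?_ ?_)
  · -- `S.add` from `S'`
    have h1 : CI (chi S'.diag) fun x : ℕ × ℕ => Nat.pair x.1 0 :=
      CI.prim₂ Primrec₂.natPair (CI.fst' CI.id) (CI.const 0)
    have h2 : CI (chi S'.diag) fun x : ℕ × ℕ => Nat.pair x.2 0 :=
      CI.prim₂ Primrec₂.natPair (CI.snd' CI.id) (CI.const 0)
    refine (CI.unpair_fst (S'.add_ci.comp (h1.pair h2))).of_eq fun x => ?_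
    simp only [hadd, Nat.unpair_pair]
  · have h1 : CI (chi S'.diag) fun x : ℕ × ℕ => Nat.pair x.1 0 :=
      CI.prim₂ Primrec₂.natPair (CI.fst' CI.id) (CI.const 0)
    have h2 : CI (chi S'.diag) fun x : ℕ × ℕ => Nat.pair x.2 0 :=
      CI.prim₂ Primrec₂.natPair (CI.snd' CI.id) (CI.const 0)
    refine (S'.lt_dec.comp (h1.pair h2)).of_iff fun x => ?_
    simp only [hlt, Nat.unpair_pair, lt_irrefl, and_false, or_false]
  · have h1 : CI (chi S.diag) fun x : ℕ × ℕ => x.1 := CI.fst' CI.id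
    have h2 : CI (chi S.diag) fun x : ℕ × ℕ => x.2 := CI.snd' CI.id
    refine (CI.prim₂ Primrec₂.natPair
      (S.add_ci.comp ((CI.unpair_fst h1).pair (CI.unpair_fst h2)))
      ((iota_add_ci _).comp ((CI.unpair_snd h1).pair (CI.unpair_snd h2)))).of_eq fun x => ?_
    exact (hadd x.1 x.2).symm
  · have h1 : CI (chi S.diag) fun x : ℕ × ℕ => x.1 := CI.fst' CI.id
    have h2 : CI (chi S.diag) fun x : ℕ × ℕ => x.2 := CI.snd' CI.id
    refine ((S.lt_dec.comp ((CI.unpair_fst h1).pair (CI.unpair_fst h2))).or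
      ((DecIn.eq (CI.unpair_fst h1) (CI.unpair_fst h2)).and
        (iota_lt_dec (CI.unpair_snd h1) (CI.unpair_snd h2)))).of_iff fun x => ?_
    exact hlt x.1 x.2

/-- The hard inclusion. -/
theorem subset_dgSp [Nontrivial V] (hdiv : ∀ n : ℕ, 0 < n → ∀ v : V, ∃ w : V, n • w = v) :
    DgSp (V ×ₗ ℤ) ![0, toLex (0, 1)] ⊆ DgSp V ![0] := by
  rintro _ ⟨S, ⟨e, he1, he2, -⟩, rfl⟩
  set O := chi S.diag with hO
  let := codP e
  have hadd : CI O fun x : (V ×ₗ ℤ) × (V ×ₗ ℤ) => x.1 + x.2 := by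
    have h1 : CI O fun x : (V ×ₗ ℤ) × (V ×ₗ ℤ) => e.symm x.1 := ci_es e (CI.fst' CI.id)
    have h2 : CI O fun x : (V ×ₗ ℤ) × (V ×ₗ ℤ) => e.symm x.2 := ci_es e (CI.snd' CI.id)
    refine (ci_e e (S.add_ci.comp (h1.pair h2))).of_eq fun x => ?_
    rw [he1, e.apply_symm_apply, e.apply_symm_apply]
  have hlt : DecIn O fun x : (V ×ₗ ℤ) × (V ×ₗ ℤ) => x.1 < x.2 := by
    have h1 : CI O fun x : (V ×ₗ ℤ) × (V ×ₗ ℤ) => e.symm x.1 := ci_es e (CI.fst' CI.id)
    have h2 : CI O fun x : (V ×ₗ ℤ) × (V ×ₗ ℤ) => e.symm x.2 := ci_es e (CI.snd' CI.id)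
    refine (S.lt_dec.comp (h1.pair h2)).of_iff fun x => ?_
    simp only [he2, e.apply_symm_apply]
  -- the divisible part
  let W : AddSubgroup (V ×ₗ ℤ) :=
    { carrier := {x | (ofLex x).2 = 0}
      zero_mem' := rfl
      add_mem' := by
        intro x y hx hy
        show (ofLex x).2 + (ofLex y).2 = 0
        rw [show (ofLex x).2 = 0 from hx, show (ofLex y).2 = 0 from hy, add_zero]
      neg_mem' := by
        intro x hx
        show -(ofLex x).2 = 0
        rw [show (ofLex x).2 = 0 from hx, neg_zero] }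
  have hWm : ∀ x, x ∈ W ↔ (ofLex x).2 = 0 := fun x => Iff.rfl
  let Ref : ℕ → V ×ₗ ℤ → Prop := fun d x => 0 < d.unpair.2.unpair.1 ∧
    d.unpair.2.unpair.1 < d.unpair.1 ∧
    d.unpair.1 • e d.unpair.2.unpair.2 + d.unpair.2.unpair.1 • (toLex (0, 1) : V ×ₗ ℤ) = x
  have hRef : DecIn O fun x : ℕ × (V ×ₗ ℤ) => Ref x.1 x.2 := by
    have h0 : CI O fun x : ℕ × (V ×ₗ ℤ) => x.1 := CI.fst' CI.id
    have h1 : CI O fun x : ℕ × (V ×ₗ ℤ) => x.1.unpair.1 := CI.unpair_fst h0
    have h2 : CI O fun x : ℕ × (V ×ₗ ℤ) => x.1.unpair.2.unpair.1 :=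
      CI.unpair_fst (CI.unpair_snd h0)
    have h3 : CI O fun x : ℕ × (V ×ₗ ℤ) => x.1.unpair.2.unpair.2 :=
      CI.unpair_snd (CI.unpair_snd h0)
    exact (DecIn.lt (CI.const 0) h2).and ((DecIn.lt h2 h1).and (DecIn.eq
      (hadd.comp ((ci_smul e hadd h1 (ci_e e h3)).pair (ci_smul e hadd h2 (CI.const _))))
      (CI.snd' CI.id)))
  have hV : ∀ x, x ∉ W ↔ ∃ d, Ref d x := by
    intro x
    obtain ⟨⟨v, m⟩, rfl⟩ := toLex.surjective x
    rw [hWm]
    constructor
    · intro hm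
      have hm : m ≠ 0 := hm
      obtain ⟨w, hw⟩ := hdiv (m.natAbs + 1) (Nat.succ_pos _) v
      have hp : (0 : ℤ) < (m.natAbs + 1 : ℕ) := by positivity
      have hlt := Int.emod_lt_of_pos m hp
      have hnn := Int.emod_nonneg m hp.ne'
      have hne : m % ((m.natAbs + 1 : ℕ) : ℤ) ≠ 0 := by
        intro h
        have h1 := Int.dvd_of_emod_eq_zero h
        have h2 := Int.natAbs_dvd_natAbs.2 h1
        have h3 := Nat.le_of_dvd (Int.natAbs_pos.2 hm) h2
        simp only [Int.natAbs_natCast] at h3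
        omega
      refine ⟨Nat.pair (m.natAbs + 1) (Nat.pair (m % ((m.natAbs + 1 : ℕ) : ℤ)).toNat
        (e.symm (toLex (w, m / ((m.natAbs + 1 : ℕ) : ℤ))))), ?_, ?_, ?_⟩
      · simp only [Nat.unpair_pair]; omega
      · simp only [Nat.unpair_pair]; omega
      · simp only [Nat.unpair_pair, Equiv.apply_symm_apply]
        rw [smul_lex, smul_lex, add_lex, hw, smul_zero, add_zero, mul_one,
          Int.toNat_of_nonneg hnn, Int.mul_ediv_add_emod]
    · rintro ⟨d, h1, h2, h3⟩ hm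
      have hm : m = 0 := hm
      generalize d.unpair.2.unpair.1 = r at h1 h2 h3
      generalize d.unpair.1 = n at h2 h3
      generalize e d.unpair.2.unpair.2 = z at h3
      obtain ⟨⟨z1, z2⟩, rfl⟩ := toLex.surjective z
      rw [smul_lex, smul_lex, add_lex, toLex.injective.eq_iff] at h3
      have h4 := congrArg Prod.snd h3
      simp only [mul_one, hm] at h4
      have h5 : (n : ℤ) ∣ r := ⟨-z2, by rw [mul_neg]; omega⟩
      have h6 := Int.natCast_dvd_natCast.1 h5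
      exact absurd (Nat.le_of_dvd h1 h6) (not_le.2 h2)
  have hWdiv : ∀ n : ℕ, 0 < n → ∀ x ∈ W, ∃ v ∈ W, n • v = x := by
    intro n hn x hx
    obtain ⟨w, hw⟩ := hdiv n hn (ofLex x).1
    refine ⟨toLex (w, 0), rfl, ?_⟩
    rw [smul_lex, hw, mul_zero, ← (hWm x).1 hx]
    rfl
  have hWne : ∃ x ∈ W, x ≠ 0 := by
    obtain ⟨v, hv⟩ := exists_ne (0 : V)
    refine ⟨toLex (v, 0), rfl, fun h => hv ?_⟩
    exact congrArg (fun x => (ofLex x).1) h
  obtain ⟨b, hinj, hran, hb1, hb2⟩ := exists_copy e W hWdiv hWne Ref hV hadd hlt hRef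
  have hbW : ∀ i, (ofLex (b i)).2 = 0 := fun i => by
    have : b i ∈ (W : Set (V ×ₗ ℤ)) := hran ▸ Set.mem_range_self i
    exact this
  have hbe : ∀ i, b i = toLex ((ofLex (b i)).1, 0) := by
    intro i
    apply ofLex.injective
    ext
    · rfl
    · exact hbW i
  let w : ℕ ≃ V := Equiv.ofBijective (fun i => (ofLex (b i)).1) ⟨fun i j hij => by
      apply hinj
      rw [hbe i, hbe j]
      simp only at hij
      rw [hij], fun v => by
      have : toLex (v, 0) ∈ Set.range b := by rw [hran]; exact rfl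
      obtain ⟨i, hi⟩ := this
      exact ⟨i, by simp only [hi]; rfl⟩⟩
  have hw : ∀ i, b i = toLex (w i, 0) := hbe
  refine exists_copy_degree _ S.diag w (hb1.of_iff fun x => ?_) (hb2.of_iff fun x => ?_)
  · rw [hw, hw, Prod.Lex.toLex_lt_toLex]
    simp
  · rw [hw, hw, hw, ← toLex_add, toLex.injective.eq_iff]
    simp

/-- The degree spectra of `V` and of `V × ℤ` agree. -/
theorem dgSp_eq [Nontrivial V] (hdiv : ∀ n : ℕ, 0 < n → ∀ v : V, ∃ w : V, n • w = v) :
    DgSp V ![0] = DgSp (V ×ₗ ℤ) ![0, toLex (0, 1)] :=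
  Set.Subset.antisymm dgSp_subset (subset_dgSp hdiv)

end Pool.Agent.Helper97.Spectra
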