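import Pool.Agent.Helper97.Spectra.Step

/-!
# The limit of the construction
-/

namespace Pool.Agent.Helper97.Spectra

variable {P : Type*} [AddCommGroup P] [LinearOrder P] [IsOrderedAddMonoid P]

variable {Ref : ℕ → P → Prop} {e : ℕ ≃ P} {c₀ : P} {V : AddSubgroup P} {f : ℕ → ℕ × List P}

section

omit [IsOrderedAddMonoid P]

theorem len_eq (h0 : f 0 = (0, [])) (hf : ∀ s, Step Ref e c₀ (f s) (f (s + 1))) (s : ℕ) :
    (f s).2.length = s := by
  induction s with
  | zero => rw [h0]; rfl
  | succ s ih => rw [(hf s).2.1, ih]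

theorem bound_le (hf : ∀ s, Step Ref e c₀ (f s) (f (s + 1))) (s : ℕ) : s ≤ (f s).1 := by
  induction s with
  | zero => exact Nat.zero_le _
  | succ s ih => exact ih.trans_lt (hf s).1

theorem bound_mono (hf : ∀ s, Step Ref e c₀ (f s) (f (s + 1))) {s t : ℕ} (h : s ≤ t) :
    (f s).1 ≤ (f t).1 := by
  induction h with
  | refl => rfl
  | step _ ih => exact ih.trans (hf _).1.le

theorem pres_lt (h0 : f 0 = (0, [])) (hf : ∀ s, Step Ref e c₀ (f s) (f (s + 1))) {s t i j : ℕ}
    (hi : i ≤ s) (hj : j ≤ s) (h : s ≤ t) :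
    ent c₀ (f t) i < ent c₀ (f t) j ↔ ent c₀ (f s) i < ent c₀ (f s) j := by
  induction h with
  | refl => rfl
  | @step t h ih =>
    have h : s ≤ t := h
    rw [← ih]
    exact (hf t).2.2.1 i (by rw [len_eq h0 hf]; omega) j (by rw [len_eq h0 hf]; omega)

theorem pres_add (h0 : f 0 = (0, [])) (hf : ∀ s, Step Ref e c₀ (f s) (f (s + 1)))
    {s t i j k : ℕ} (hi : i ≤ s) (hj : j ≤ s) (hk : k ≤ s) (h : s ≤ t) :
    ent c₀ (f t) i + ent c₀ (f t) j = ent c₀ (f t) k ↔
      ent c₀ (f s) i + ent c₀ (f s) j = ent c₀ (f s) k := by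
  induction h with
  | refl => rfl
  | @step t h ih =>
    have h : s ≤ t := h
    rw [← ih]
    exact (hf t).2.2.2.1 i (by rw [len_eq h0 hf]; omega) j (by rw [len_eq h0 hf]; omega)
      k (by rw [len_eq h0 hf]; omega)

theorem keep (hV : ∀ x, x ∉ V ↔ ∃ d, Ref d x) (h0 : f 0 = (0, []))
    (hf : ∀ s, Step Ref e c₀ (f s) (f (s + 1))) {s t i : ℕ} (hi : i ≤ s)
    (hiV : ∀ j ≤ i, ent c₀ (f s) j ∈ V) (h : s ≤ t) :
    ∀ j ≤ i, ent c₀ (f t) j = ent c₀ (f s) j := by
  induction h with
  | refl => exact fun _ _ => rfl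
  | @step t h ih =>
    have h : s ≤ t := h
    intro j hj
    obtain ⟨m, hm, h1, h2⟩ := (hf t).2.2.2.2.1
    rw [len_eq h0 hf] at h2
    have him : i < m := by
      by_contra him
      rcases h2 with h2 | ⟨⟨d, _, hd⟩, -⟩
      · omega
      · refine (hV _).2 ⟨d, hd⟩ ?_
        rw [ih m (by omega)]
        exact hiV m (by omega)
    rw [← ih j hj]
    exact (h1 j (by omega)).1

theorem ne_of_lt' (h0 : f 0 = (0, [])) (hf : ∀ s, Step Ref e c₀ (f s) (f (s + 1)))
    {t i j : ℕ} (hij : i < j) (hj : j ≤ t) :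
    ent c₀ (f t) i ≠ ent c₀ (f t) j := by
  obtain ⟨s, rfl⟩ : ∃ s, j = s + 1 := ⟨j - 1, by omega⟩
  have h1 := (hf s).2.2.2.2.2.2.1 i (by rw [len_eq h0 hf]; omega)
  rw [len_eq h0 hf] at h1
  rcases lt_or_gt_of_ne h1 with h | h
  · exact ((pres_lt h0 hf (by omega) le_rfl hj).2 h).ne
  · exact ((pres_lt h0 hf le_rfl (by omega) hj).2 h).ne'

end

/-- There are arbitrarily late stages at which all entries but possibly the last are correct. -/
theorem exists_true (hdiv : ∀ n : ℕ, 0 < n → ∀ w ∈ V, ∃ v ∈ V, n • v = w)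
    (hV : ∀ x, x ∉ V ↔ ∃ d, Ref d x) (h0 : f 0 = (0, []))
    (hf : ∀ s, Step Ref e c₀ (f s) (f (s + 1))) (s : ℕ) :
    ∃ t, s < t ∧ ∀ i < t, ent c₀ (f t) i ∈ V := by
  classical
  by_contra hcon
  push Not at hcon
  -- `i₁`: least false index at stage `s`
  have hex : ∃ i, i ≤ s ∧ ent c₀ (f s) i ∉ V := by
    by_contra hall
    push Not at hall
    obtain ⟨i, hi, h⟩ := hcon (s + 1) (Nat.lt_succ_self s)
    apply h
    rw [keep hV h0 hf le_rfl hall (Nat.le_succ s) i (by omega)]
    exact hall i (by omega)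
  obtain ⟨hi1, hi2⟩ := Nat.find_spec hex
  have hi3 : ∀ j < Nat.find hex, ent c₀ (f s) j ∈ V := fun j hj => by
    have := Nat.find_min hex hj
    by_contra h
    exact this ⟨by omega, h⟩
  generalize Nat.find hex = i₁ at hi1 hi2 hi3
  have key : ∀ t, s ≤ t → (∀ j ≤ i₁, ent c₀ (f t) j = ent c₀ (f s) j) ∧
      ∀ d < (f (t + 1)).1, ¬ Ref d (ent c₀ (f s) i₁) := by
    intro t hst
    induction hst with
    | refl =>
      obtain ⟨m, hm, h1, h2⟩ := (hf s).2.2.2.2.1
      rw [len_eq h0 hf] at h2 hm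
      have him : i₁ < m := by
        by_contra him
        obtain ⟨i, hi, h⟩ := hcon (s + 1) (Nat.lt_succ_self s)
        apply h
        rcases h2 with h2 | ⟨⟨d, _, hd⟩, h3⟩
        · omega
        · have hmi : m = i₁ := by
            by_contra hne
            exact (hV _).2 ⟨d, hd⟩ (hi3 m (by omega))
          by_cases him' : i < m
          · rw [(h1 i him').1]
            exact hi3 i (by omega)
          · obtain ⟨q, _, hq⟩ := h3 i hi (by omega)
            exact cert_mem V hdiv (fun l hl => hi3 l (by omega)) hq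
      exact ⟨fun _ _ => rfl, (h1 i₁ him).2⟩
    | @step t hst ih =>
      have hst : s ≤ t := hst
      have h4 : ∀ j ≤ i₁, ent c₀ (f (t + 1)) j = ent c₀ (f s) j := by
        obtain ⟨m, hm, h1, h2⟩ := (hf t).2.2.2.2.1
        rw [len_eq h0 hf] at h2 hm
        have him : i₁ < m := by
          by_contra him
          rcases h2 with h2 | ⟨⟨d, hd', hd⟩, h3⟩
          · omega
          · rw [ih.1 m (by omega)] at hd
            rcases Nat.lt_or_ge m i₁ with h5 | h5
            · exact (hV _).2 ⟨d, hd⟩ (hi3 m h5)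
            · obtain rfl : m = i₁ := by omega
              exact ih.2 d hd' hd
        intro j hj
        rw [(h1 j (by omega)).1, ih.1 j hj]
      refine ⟨h4, ?_⟩
      obtain ⟨m, hm, h1, h2⟩ := (hf (t + 1)).2.2.2.2.1
      rw [len_eq h0 hf] at h2 hm
      have him : i₁ < m := by
        by_contra him
        obtain ⟨i, hi, h⟩ := hcon (t + 2) (by omega)
        apply h
        rcases h2 with h2 | ⟨⟨d, _, hd⟩, h3⟩
        · omega
        · rw [h4 m (by omega)] at hd
          have hmi : m = i₁ := by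
            by_contra hne
            exact (hV _).2 ⟨d, hd⟩ (hi3 m (by omega))
          by_cases him' : i < m
          · rw [(h1 i him').1, h4 i (by omega)]
            exact hi3 i (by omega)
          · obtain ⟨q, _, hq⟩ := h3 i hi (by omega)
            refine cert_mem V hdiv (fun l hl => ?_) hq
            rw [h4 l (by omega)]
            exact hi3 l (by omega)
      intro d hd hd'
      rw [← h4 i₁ le_rfl] at hd'
      exact (h1 i₁ him).2 d hd hd'
  obtain ⟨d, hd⟩ := (hV _).1 hi2
  refine (key (max s d) (le_max_left _ _)).2 d ?_ hd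
  exact ((le_max_right s d).trans_lt (Nat.lt_succ_self _)).trans_le (bound_le hf _)

/-- The limit. -/
theorem exists_limit (hdiv : ∀ n : ℕ, 0 < n → ∀ w ∈ V, ∃ v ∈ V, n • v = w)
    (hV : ∀ x, x ∉ V ↔ ∃ d, Ref d x) (h0 : f 0 = (0, []))
    (hf : ∀ s, Step Ref e c₀ (f s) (f (s + 1))) :
    ∃ b : ℕ → P, ∀ i, ∃ s, i < s ∧ (∀ j < s, ent c₀ (f s) j ∈ V) ∧
      ∀ t, s ≤ t → ent c₀ (f t) i = b i := by
  have h := fun i => exists_true hdiv hV h0 hf i
  choose t ht using h
  refine ⟨fun i => ent c₀ (f (t i)) i, fun i => ⟨t i, (ht i).1, (ht i).2, fun t' ht' => ?_⟩⟩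
  exact keep hV h0 hf (ht i).1.le (fun j hj => (ht i).2 j (lt_of_le_of_lt hj (ht i).1)) ht' i le_rfl

theorem limit_spec (hdiv : ∀ n : ℕ, 0 < n → ∀ w ∈ V, ∃ v ∈ V, n • v = w)
    (hV : ∀ x, x ∉ V ↔ ∃ d, Ref d x) (h0 : f 0 = (0, []))
    (hf : ∀ s, Step Ref e c₀ (f s) (f (s + 1))) :
    ∃ b : ℕ → P, b.Injective ∧ Set.range b = V ∧
      (∀ i j, b i < b j ↔ ent c₀ (f (i + j)) i < ent c₀ (f (i + j)) j) ∧
      (∀ i j k, b i + b j = b k ↔
        ent c₀ (f (i + j + k)) i + ent c₀ (f (i + j + k)) j = ent c₀ (f (i + j + k)) k) := by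
  obtain ⟨b, hb⟩ := exists_limit hdiv hV h0 hf
  have hbV : ∀ i, b i ∈ V := by
    intro i
    obtain ⟨s, hs, h1, h2⟩ := hb i
    rw [← h2 s le_rfl]
    exact h1 i hs
  have hlt : ∀ i j, b i < b j ↔ ent c₀ (f (i + j)) i < ent c₀ (f (i + j)) j := by
    intro i j
    obtain ⟨s, hs, -, h2⟩ := hb i
    obtain ⟨s', hs', -, h2'⟩ := hb j
    rw [← h2 (s + s' + (i + j)) (by omega), ← h2' (s + s' + (i + j)) (by omega)]
    exact pres_lt h0 hf (by omega) (by omega) (by omega)
  have hadd : ∀ i j k, b i + b j = b k ↔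
        ent c₀ (f (i + j + k)) i + ent c₀ (f (i + j + k)) j = ent c₀ (f (i + j + k)) k := by
    intro i j k
    obtain ⟨s, hs, -, h2⟩ := hb i
    obtain ⟨s', hs', -, h2'⟩ := hb j
    obtain ⟨s'', hs'', -, h2''⟩ := hb k
    rw [← h2 (s + s' + s'' + (i + j + k)) (by omega),
      ← h2' (s + s' + s'' + (i + j + k)) (by omega),
      ← h2'' (s + s' + s'' + (i + j + k)) (by omega)]
    exact pres_add h0 hf (by omega) (by omega) (by omega) (by omega)
  have hne : ∀ i j, i < j → b i ≠ b j := by
    intro i j hij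
    obtain ⟨s, hs, -, h2⟩ := hb i
    obtain ⟨s', hs', -, h2'⟩ := hb j
    rw [← h2 (s + s') (by omega), ← h2' (s + s') (by omega)]
    exact ne_of_lt' h0 hf hij (by omega)
  refine ⟨b, fun i j hij => ?_, ?_, hlt, hadd⟩
  · rcases lt_trichotomy i j with h | h | h
    · exact absurd hij (hne i j h)
    · exact h
    · exact absurd hij.symm (hne j i h)
  · apply Set.Subset.antisymm
    · rintro _ ⟨i, rfl⟩
      exact hbV i
    · -- surjectivity
      suffices h : ∀ j, e j ∈ V → e j ∈ Set.range b by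
        intro v hv
        have := h (e.symm v) (by rwa [e.apply_symm_apply])
        rwa [e.apply_symm_apply] at this
      intro j
      induction j using Nat.strong_induction_on with
      | _ j ih =>
        intro hj
        by_contra hcon
        -- a stage by which all smaller elements are dealt with
        have hst : ∀ k, ∃ S, k < j → ((∃ d < S, Ref d (e k)) ∨
            ∃ i < S, ∀ t, S ≤ t → ent c₀ (f t) i = e k) := by
          intro k
          by_cases hk : k < j
          · by_cases hkV : e k ∈ V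
            · obtain ⟨i, hi⟩ := ih k hk hkV
              obtain ⟨s, hs, -, h2⟩ := hb i
              exact ⟨s, fun _ => Or.inr ⟨i, hs, fun t ht => by rw [h2 t ht, hi]⟩⟩
            · obtain ⟨d, hd⟩ := (hV _).1 hkV
              exact ⟨d + 1, fun _ => Or.inl ⟨d, Nat.lt_succ_self d, hd⟩⟩
          · exact ⟨0, fun h => absurd h hk⟩
        choose S hS using hst
        obtain ⟨M, hM⟩ : ∃ M, ∀ k < j, S k ≤ M := ⟨∑ i ∈ Finset.range j, S i, fun k hk =>
          Finset.single_le_sum (f := S) (fun _ _ => Nat.zero_le _) (Finset.mem_range.2 hk)⟩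
        obtain ⟨t, ht, htV⟩ := exists_true hdiv hV h0 hf M
        obtain ⟨t, rfl⟩ : ∃ t', t = t' + 1 := ⟨t - 1, by omega⟩
        -- entries below `t + 1` are in the range of `b`
        have hrange : ∀ T, (∀ i ≤ T, ent c₀ (f T) i ∈ V) → ∀ i ≤ T,
            ent c₀ (f T) i ∈ Set.range b := by
          intro T hT i hi
          obtain ⟨s, hs, -, h2⟩ := hb i
          refine ⟨i, ?_⟩
          rw [← h2 (s + T) (by omega)]
          exact keep hV h0 hf le_rfl (fun j hj => hT j hj) (by omega) i hi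
        have hrange' : ∀ i ≤ t, ent c₀ (f (t + 1)) i ∈ Set.range b := by
          intro i hi
          obtain ⟨s, hs, -, h2⟩ := hb i
          refine ⟨i, ?_⟩
          rw [← h2 (s + (t + 1)) (by omega)]
          exact keep hV h0 hf (by omega : t ≤ t + 1) (fun j hj => htV j (by omega)) (by omega) i hi
        obtain ⟨-, -, -, -, -, h6, h7, h8⟩ := hf t
        rw [len_eq h0 hf] at h6 h7 h8
        -- the last entry
        have hlast : ent c₀ (f (t + 1)) (t + 1) = e j := by
          rcases lt_trichotomy (e.symm (ent c₀ (f (t + 1)) (t + 1))) j with h | h | h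
          · exfalso
            generalize hk : e.symm (ent c₀ (f (t + 1)) (t + 1)) = k at h
            rw [Equiv.symm_apply_eq] at hk
            rcases hS k h with ⟨d, hd, hd'⟩ | ⟨i, hi, h9⟩
            · refine h6 d ?_ (hk ▸ hd')
              have := bound_le hf (t + 1)
              have := hM k h
              omega
            · have h10 := hM k h
              refine h7 i (by omega) ?_
              rw [hk, h9 (t + 1) (by omega)]
          · rw [← h, e.apply_symm_apply]
          · exfalso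
            rcases h8 j h with ⟨d, _, hd⟩ | ⟨i, hi, h9⟩
            · exact (hV _).2 ⟨d, hd⟩ hj
            · exact hcon (h9 ▸ hrange' i (by omega))
        apply hcon
        rw [← hlast]
        refine hrange (t + 1) (fun i hi => ?_) (t + 1) le_rfl
        rcases hi.lt_or_eq with h | rfl
        · exact htV i h
        · rw [hlast]; exact hj

end Pool.Agent.Helper97.Spectra
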