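import Pool.Agent.Helper97.Spectra.EC

/-!
# One step of the construction

States are pairs `(c, L)`; the entries of the state are those of the list `c₀ :: L`.
-/

namespace Pool.Agent.Helper97.Spectra

open Encodable

variable {P : Type*} [AddCommGroup P]

/-- The `i`-th entry of a state. -/
def ent (c₀ : P) (a : ℕ × List P) (i : ℕ) : P := (c₀ :: a.2).getD i 0

/-- `Σ_{l<n} A l • (entry l)`. -/
def lc (A : ℕ → ℕ) (F : ℕ → P) (n : ℕ) : P := n.rec 0 fun l IH => IH + A l • F l

/-- Coefficients coded by a natural number. -/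
def coef (q l : ℕ) : ℕ := ((@decode (List ℕ) _ q).getD []).getD l 0

/-- `q` codes a certificate that `x` is in the divisible hull of the first `m` entries. -/
def Cert (q m : ℕ) (F : ℕ → P) (x : P) : Prop :=
  (q.unpair.1 + 1) • x + lc (coef q.unpair.2.unpair.1) F m = lc (coef q.unpair.2.unpair.2) F m

variable [LinearOrder P]

/-- One step of the construction. -/
def Step (Ref : ℕ → P → Prop) (e : ℕ ≃ P) (c₀ : P) (a b : ℕ × List P) : Prop :=
  a.1 < b.1 ∧ b.2.length = a.2.length + 1 ∧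
  (∀ i < a.2.length + 1, ∀ j < a.2.length + 1,
    (ent c₀ b i < ent c₀ b j ↔ ent c₀ a i < ent c₀ a j)) ∧
  (∀ i < a.2.length + 1, ∀ j < a.2.length + 1, ∀ k < a.2.length + 1,
    (ent c₀ b i + ent c₀ b j = ent c₀ b k ↔ ent c₀ a i + ent c₀ a j = ent c₀ a k)) ∧
  (∃ m < a.2.length + 2, (∀ i < m, ent c₀ b i = ent c₀ a i ∧ ∀ d < b.1, ¬ Ref d (ent c₀ a i)) ∧
    (m = a.2.length + 1 ∨ ((∃ d < b.1, Ref d (ent c₀ a m)) ∧
      ∀ i < a.2.length + 1, m ≤ i → ∃ q < b.1, Cert q m (ent c₀ a) (ent c₀ b i)))) ∧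
  (∀ d < b.1, ¬ Ref d (ent c₀ b (a.2.length + 1))) ∧
  (∀ i < a.2.length + 1, ent c₀ b i ≠ ent c₀ b (a.2.length + 1)) ∧
  ∀ j < e.symm (ent c₀ b (a.2.length + 1)),
    (∃ d < b.1, Ref d (e j)) ∨ ∃ i < a.2.length + 1, ent c₀ b i = e j

omit [LinearOrder P] in
theorem lc_congr {A B : ℕ → ℕ} {F : ℕ → P} {n : ℕ} (h : ∀ l < n, A l = B l) :
    lc A F n = lc B F n := by
  induction n with
  | zero => rfl
  | succ n ih =>
    show lc A F n + A n • F n = lc B F n + B n • F n
    rw [ih fun l hl => h l (by omega), h n (by omega)]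

omit [LinearOrder P] in
theorem lc_zero (F : ℕ → P) (n : ℕ) : lc (fun _ => 0) F n = 0 := by
  induction n with
  | zero => rfl
  | succ n ih =>
    show lc (fun _ => 0) F n + 0 • F n = 0
    rw [ih]; simp

omit [LinearOrder P] in
theorem lc_comb (A B : ℕ → ℕ) (F : ℕ → P) (r s n : ℕ) :
    lc (fun l => r * A l + s * B l) F n = r • lc A F n + s • lc B F n := by
  induction n with
  | zero => simp [lc]
  | succ n ih =>
    show lc (fun l => r * A l + s * B l) F n + (r * A n + s * B n) • F n =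
      r • (lc A F n + A n • F n) + s • (lc B F n + B n • F n)
    rw [ih]
    simp only [smul_add, add_smul, mul_smul]
    abel

omit [LinearOrder P] in
theorem lc_single (F : ℕ → P) (i n : ℕ) (h : i < n) :
    lc (fun l => if l = i then 1 else 0) F n = F i := by
  induction n with
  | zero => omega
  | succ n ih =>
    show lc (fun l => if l = i then 1 else 0) F n + (if n = i then 1 else 0) • F n = F i
    by_cases hn : n = i
    · subst hn
      rw [lc_congr (B := fun _ => 0) (fun l hl => by simp [hl.ne]), lc_zero]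
      simp
    · rw [ih (by omega)]; simp [hn]

omit [LinearOrder P] in
theorem lc_mem (V : AddSubgroup P) (A : ℕ → ℕ) (F : ℕ → P) (n : ℕ) (h : ∀ l < n, F l ∈ V) :
    lc A F n ∈ V := by
  induction n with
  | zero => exact V.zero_mem
  | succ n ih =>
    exact V.add_mem (ih fun l hl => h l (by omega)) (V.nsmul_mem (h n (by omega)) _)

theorem coef_encode (A : ℕ → ℕ) (m l : ℕ) (hl : l < m) :
    coef (encode ((List.range m).map A)) l = A l := by
  simp [coef, List.getD_eq_getElem?_getD, hl]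

omit [LinearOrder P] in
/-- From coefficients to a certificate. -/
theorem cert_exists {N m : ℕ} (hN : 0 < N) {A B : ℕ → ℕ} {F : ℕ → P} {x : P}
    (h : N • x + lc A F m = lc B F m) : ∃ q, Cert q m F x := by
  refine ⟨Nat.pair (N - 1) (Nat.pair (encode ((List.range m).map A))
    (encode ((List.range m).map B))), ?_⟩
  unfold Cert
  simp only [Nat.unpair_pair]
  rw [lc_congr fun l hl => coef_encode A m l hl, lc_congr fun l hl => coef_encode B m l hl,
    Nat.sub_add_cancel hN]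
  exact h

/-- The divisible hull, inside `V`, of the first `m` entries. -/
def hull (V : AddSubgroup P) (F : ℕ → P) (m : ℕ) : AddSubgroup P where
  carrier := {x | x ∈ V ∧ ∃ N : ℕ, 0 < N ∧ ∃ A B : ℕ → ℕ, N • x + lc A F m = lc B F m}
  zero_mem' := ⟨V.zero_mem, 1, one_pos, fun _ => 0, fun _ => 0, by simp [lc_zero]⟩
  add_mem' := by
    rintro x y ⟨hx, N, hN, A, B, h⟩ ⟨hy, N', hN', A', B', h'⟩
    refine ⟨V.add_mem hx hy, N * N', Nat.mul_pos hN hN', fun l => N' * A l + N * A' l,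
      fun l => N' * B l + N * B' l, ?_⟩
    rw [lc_comb, lc_comb, ← h, ← h']
    simp only [smul_add, mul_smul]
    rw [smul_comm N N' x]
    abel
  neg_mem' := by
    rintro x ⟨hx, N, hN, A, B, h⟩
    refine ⟨V.neg_mem hx, N, hN, B, A, ?_⟩
    rw [← h, smul_neg]; abel

variable [IsOrderedAddMonoid P]

omit [LinearOrder P] [IsOrderedAddMonoid P] in
theorem hull_div (V : AddSubgroup P) (hdiv : ∀ n : ℕ, 0 < n → ∀ w ∈ V, ∃ v ∈ V, n • v = w)
    (F : ℕ → P) (m : ℕ) : ∀ n : ℕ, 0 < n → ∀ w ∈ hull V F m, ∃ v ∈ hull V F m, n • v = w := by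
  rintro n hn w ⟨hw, N, hN, A, B, h⟩
  obtain ⟨v, hv, rfl⟩ := hdiv n hn w hw
  exact ⟨v, ⟨hv, N * n, Nat.mul_pos hN hn, A, B, by rw [mul_smul]; exact h⟩, rfl⟩

theorem nsmul_eq_zero'' {n : ℕ} (hn : 0 < n) {y : P} : n • y = 0 ↔ y = 0 := by
  have := zsmul_eq_zero' (m := (n : ℤ)) (by exact_mod_cast hn.ne') (y := y)
  rwa [natCast_zsmul] at this

/-- `V` is pure in `P`. -/
theorem pure_of_div (V : AddSubgroup P) (hdiv : ∀ n : ℕ, 0 < n → ∀ w ∈ V, ∃ v ∈ V, n • v = w)
    {n : ℕ} (hn : 0 < n) {y : P} (h : n • y ∈ V) : y ∈ V := by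
  obtain ⟨v, hv, hv'⟩ := hdiv n hn _ h
  have : n • (v - y) = 0 := by rw [smul_sub, hv', sub_self]
  rw [nsmul_eq_zero'' hn, sub_eq_zero] at this
  exact this ▸ hv

theorem cert_mem (V : AddSubgroup P) (hdiv : ∀ n : ℕ, 0 < n → ∀ w ∈ V, ∃ v ∈ V, n • v = w)
    {q m : ℕ} {F : ℕ → P} {x : P} (hF : ∀ l < m, F l ∈ V) (h : Cert q m F x) : x ∈ V := by
  refine pure_of_div V hdiv (Nat.succ_pos q.unpair.1) ?_
  rw [← add_sub_cancel_right ((q.unpair.1.succ) • x) (lc (coef q.unpair.2.unpair.1) F m)]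
  refine V.sub_mem ?_ (lc_mem V _ F m hF)
  have h' : q.unpair.1.succ • x + lc (coef q.unpair.2.unpair.1) F m =
    lc (coef q.unpair.2.unpair.2) F m := h
  rw [h']
  exact lc_mem V _ F m hF

/-- Replacement lemma: the entries from index `m` on can be replaced by elements of the hull of the
first `m` entries. -/
theorem replace (V : AddSubgroup P) (hdiv : ∀ n : ℕ, 0 < n → ∀ w ∈ V, ∃ v ∈ V, n • v = w)
    (F : List P) (m : ℕ) (hm0 : 0 < m)
    (hF : ∀ i < m, F.getD i 0 ∈ V) (h0 : F.getD 0 0 ≠ 0) :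
    ∃ F' : List P, F'.length = F.length ∧ (∀ x ∈ F', x ∈ hull V (fun i => F.getD i 0) m) ∧
      (∀ i < m, F'.getD i 0 = F.getD i 0) ∧
      (∀ i < F.length, ∀ j < F.length, (F'.getD i 0 < F'.getD j 0 ↔ F.getD i 0 < F.getD j 0)) ∧
      (∀ i < F.length, ∀ j < F.length, ∀ k < F.length,
        (F'.getD i 0 + F'.getD j 0 = F'.getD k 0 ↔ F.getD i 0 + F.getD j 0 = F.getD k 0)) := by
  have hmem : ∀ i < m, F.getD i 0 ∈ hull V (fun i => F.getD i 0) m := fun i hi =>
    ⟨hF i hi, 1, one_pos, fun _ => 0, fun l => if l = i then 1 else 0, by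
      rw [lc_zero, lc_single _ i m hi]; simp⟩
  obtain ⟨F', hlen, hW, h⟩ := ec (hull V (fun i => F.getD i 0) m) (hull_div V hdiv _ m)
    ⟨_, hmem 0 hm0, h0⟩ F
    (Set.range (fun x : Fin F.length × Fin F.length =>
      ((fun l => 1 * (Pi.single (x.2 : ℕ) 1 : ℕ → ℤ) l - 1 * (Pi.single (x.1 : ℕ) 1 : ℕ → ℤ) l :
        ℕ → ℤ), (0 : P))) ∪
     Set.range (fun x : Fin F.length × Fin F.length × Fin F.length =>
      ((fun l => 1 * (fun l => 1 * (Pi.single (x.1 : ℕ) 1 : ℕ → ℤ) l -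
        (-1) * (Pi.single (x.2.1 : ℕ) 1 : ℕ → ℤ) l) l - 1 * (Pi.single (x.2.2 : ℕ) 1 : ℕ → ℤ) l :
        ℕ → ℤ), (0 : P))) ∪
     Set.range (fun x : Fin F.length × Fin F.length × Fin F.length =>
      ((fun l => (-1) * (fun l => 1 * (Pi.single (x.1 : ℕ) 1 : ℕ → ℤ) l -
        (-1) * (Pi.single (x.2.1 : ℕ) 1 : ℕ → ℤ) l) l -
        (-1) * (Pi.single (x.2.2 : ℕ) 1 : ℕ → ℤ) l : ℕ → ℤ), (0 : P))) ∪
     Set.range (fun x : Fin m => ((Pi.single (x : ℕ) 1 : ℕ → ℤ), - F.getD x 0)))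
    ((((Set.finite_range _).union (Set.finite_range _)).union (Set.finite_range _)).union
      (Set.finite_range _)) (by
      rintro _ (((⟨x, rfl⟩ | ⟨x, rfl⟩) | ⟨x, rfl⟩) | ⟨x, rfl⟩)
      · exact AddSubgroup.zero_mem _
      · exact AddSubgroup.zero_mem _
      · exact AddSubgroup.zero_mem _
      · exact AddSubgroup.neg_mem _ (hmem x x.2))
  have hlt : ∀ i < F.length, ∀ j < F.length, F.getD i 0 < F.getD j 0 →
      F'.getD i 0 < F'.getD j 0 := by
    intro i hi j hj hij
    have := (h _ (Or.inl (Or.inl (Or.inl ⟨(⟨i, hi⟩, ⟨j, hj⟩), rfl⟩)))).1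
    simp only [val_sub, val_single, one_smul, add_zero, sub_pos] at this
    exact this hij
  have heq : ∀ i < F.length, ∀ j < F.length, F.getD i 0 = F.getD j 0 →
      F'.getD i 0 = F'.getD j 0 := by
    intro i hi j hj hij
    have := (h _ (Or.inl (Or.inl (Or.inl ⟨(⟨i, hi⟩, ⟨j, hj⟩), rfl⟩)))).2
    simp only [val_sub, val_single, one_smul, add_zero, sub_eq_zero] at this
    exact (this hij.symm).symm
  refine ⟨F', hlen, hW, fun i hi => ?_, fun i hi j hj => ⟨fun hij => ?_, hlt i hi j hj⟩,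
    fun i hi j hj k hk => ?_⟩
  · have := (h _ (Or.inr ⟨⟨i, hi⟩, rfl⟩)).2
    simp only [val_single, add_neg_eq_zero] at this
    exact this trivial
  · rcases lt_trichotomy (F.getD i 0) (F.getD j 0) with h1 | h1 | h1
    · exact h1
    · exact absurd (heq i hi j hj h1) hij.ne
    · exact absurd (hlt j hj i hi h1) (not_lt.2 hij.le)
  · have h1 := h _ (Or.inl (Or.inl (Or.inr ⟨(⟨i, hi⟩, ⟨j, hj⟩, ⟨k, hk⟩), rfl⟩)))
    have h2 := (h _ (Or.inl (Or.inr ⟨(⟨i, hi⟩, ⟨j, hj⟩, ⟨k, hk⟩), rfl⟩))).1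
    simp only [val_sub, val_single, one_smul, add_zero, neg_smul, sub_neg_eq_add,
      sub_pos, neg_add_eq_sub, sub_eq_zero] at h1 h2
    constructor
    · intro h3
      rcases lt_trichotomy (F.getD i 0 + F.getD j 0) (F.getD k 0) with h4 | h4 | h4
      · exact absurd h3 (h2 h4).ne
      · exact h4
      · exact absurd h3 (h1.1 h4).ne'
    · exact h1.2

/-- Every state has a successor. -/
theorem step_total (Ref : ℕ → P → Prop) (e : ℕ ≃ P) (c₀ : P) (V : AddSubgroup P)
    (hdiv : ∀ n : ℕ, 0 < n → ∀ w ∈ V, ∃ v ∈ V, n • v = w)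
    (hV : ∀ x, x ∉ V ↔ ∃ d, Ref d x) (hc : c₀ ∈ V) (hc0 : c₀ ≠ 0) (a : ℕ × List P) :
    ∃ b, Step Ref e c₀ a b := by
  classical
  -- `m`: least false index, or the length
  obtain ⟨m, hm, hmV, hm'⟩ : ∃ m ≤ a.2.length + 1, (∀ i < m, ent c₀ a i ∈ V) ∧
      (m = a.2.length + 1 ∨ ent c₀ a m ∉ V) := by
    by_cases h : ∃ m < a.2.length + 1, ent c₀ a m ∉ V
    · refine ⟨Nat.find h, (Nat.find_spec h).1.le, fun i hi => ?_, Or.inr (Nat.find_spec h).2⟩
      by_contra h'
      exact Nat.find_min h hi ⟨hi.trans (Nat.find_spec h).1, h'⟩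
    · push Not at h
      exact ⟨a.2.length + 1, le_rfl, h, Or.inl rfl⟩
  have hm0 : 0 < m := by
    rcases Nat.eq_zero_or_pos m with rfl | h
    · rcases hm' with h | h
      · omega
      · exact absurd hc h
    · exact h
  obtain ⟨F', hlen, hW, hFm, hFlt, hFadd⟩ := replace V hdiv (c₀ :: a.2) m hm0 hmV (by simpa)
  rw [List.length_cons] at hlen hFlt hFadd
  -- certificates
  have hcert : ∀ i, ∃ q, i < a.2.length + 1 → Cert q m (ent c₀ a) (F'.getD i 0) := by
    intro i
    by_cases hi : i < a.2.length + 1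
    · have : F'.getD i 0 ∈ hull V (ent c₀ a) m := by
        have h1 : F'.getD i 0 ∈ F' := by
          rw [List.getD_eq_getElem _ _ (by omega)]
          exact List.getElem_mem _
        exact hW _ h1
      obtain ⟨-, N, hN, A, B, h⟩ := this
      obtain ⟨q, hq⟩ := cert_exists hN h
      exact ⟨q, fun _ => hq⟩
    · exact ⟨0, fun h => absurd h hi⟩
  choose q hq using hcert
  -- the new bound
  obtain ⟨d₀, hd₀⟩ : ∃ d₀, m = a.2.length + 1 ∨ Ref d₀ (ent c₀ a m) := by
    rcases hm' with h | h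
    · exact ⟨0, Or.inl h⟩
    · obtain ⟨d, hd⟩ := (hV _).1 h
      exact ⟨d, Or.inr hd⟩
  obtain ⟨c', hc1, hc2, hc3⟩ : ∃ c', a.1 < c' ∧ d₀ < c' ∧ ∀ i < a.2.length + 1, q i < c' := by
    refine ⟨a.1 + d₀ + ∑ i ∈ Finset.range (a.2.length + 1), q i + 1, by omega, by omega, ?_⟩
    intro i hi
    have := Finset.single_le_sum (f := q) (fun _ _ => Nat.zero_le _) (Finset.mem_range.2 hi)
    omega
  -- the new last entry
  have hex : ∃ j, (∀ d < c', ¬ Ref d (e j)) ∧ ∀ i < a.2.length + 1, F'.getD i 0 ≠ e j := by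
    have hinf : (V : Set P).Infinite := by
      refine Set.infinite_of_injective_forall_mem (f := fun n : ℕ => n • c₀) ?_
        fun n => V.nsmul_mem hc n
      intro i j hij
      have hij : i • c₀ = j • c₀ := hij
      have key : ∀ i j : ℕ, i < j → i • c₀ = j • c₀ → False := by
        intro i j h h'
        have h1 : (j - i) • c₀ = 0 := by
          have : (j - i + i) • c₀ = i • c₀ := by rw [Nat.sub_add_cancel h.le, h']
          rw [add_smul] at this
          exact add_eq_right.1 this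
        exact hc0 ((nsmul_eq_zero'' (by omega)).1 h1)
      rcases lt_trichotomy i j with h | h | h
      · exact (key i j h hij).elim
      · exact h
      · exact (key j i h hij.symm).elim
    obtain ⟨x, hx, hx'⟩ := hinf.exists_notMem_finite F'.finite_toSet
    refine ⟨e.symm x, fun d _ hd => ?_, fun i hi h => ?_⟩
    · rw [e.apply_symm_apply] at hd
      exact (hV x).2 ⟨d, hd⟩ hx
    · rw [e.apply_symm_apply] at h
      apply hx'
      show x ∈ F'
      rw [← h, List.getD_eq_getElem _ _ (by omega)]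
      exact List.getElem_mem _
  obtain ⟨hj1, hj2⟩ := Nat.find_spec hex
  have hj3 := fun j (h : j < Nat.find hex) => Nat.find_min hex h
  generalize Nat.find hex = j at hj1 hj2 hj3
  -- the new state
  obtain ⟨y, L', rfl⟩ : ∃ y L', F' = y :: L' := by
    cases F' with
    | nil => simp at hlen
    | cons y L' => exact ⟨y, L', rfl⟩
  have hy : y = c₀ := by simpa using hFm 0 hm0
  subst hy
  have hL : L'.length = a.2.length := by simpa using hlen
  have hent : ∀ i < a.2.length + 1, ent y (c', L' ++ [e j]) i = (y :: L').getD i 0 := by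
    intro i hi
    unfold ent
    rw [← List.cons_append, List.getD_append _ _ _ _ (by simp; omega)]
  have hlast : ent y (c', L' ++ [e j]) (a.2.length + 1) = e j := by
    unfold ent
    simp [List.getD_eq_getElem?_getD, ← hL]
  refine ⟨(c', L' ++ [e j]), hc1, by simp [hL], ?_, ?_, ?_, ?_, ?_, ?_⟩
  · intro i hi j hj
    rw [hent i hi, hent j hj]
    exact hFlt i hi j hj
  · intro i hi j hj k hk
    rw [hent i hi, hent j hj, hent k hk]
    exact hFadd i hi j hj k hk
  · refine ⟨m, by omega, fun i hi => ⟨?_, fun d _ hd => ?_⟩, ?_⟩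
    · rw [hent i (by omega)]
      exact hFm i hi
    · exact (hV _).2 ⟨d, hd⟩ (hmV i hi)
    · rcases hd₀ with h | h
      · exact Or.inl h
      · refine Or.inr ⟨⟨d₀, hc2, h⟩, fun i hi _ => ⟨q i, hc3 i hi, ?_⟩⟩
        rw [hent i hi]
        exact hq i hi
  · rw [hlast]; exact hj1
  · intro i hi
    rw [hlast, hent i hi]
    exact hj2 i hi
  · rw [hlast, e.symm_apply_apply]
    intro k hk
    have := hj3 k hk
    rw [not_and_or] at this
    rcases this with h | h
    · push Not at h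
      exact Or.inl h
    · push Not at h
      obtain ⟨i, hi, h⟩ := h
      exact Or.inr ⟨i, hi, by rw [hent i hi]; exact h⟩

end Pool.Agent.Helper97.Spectra
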